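import Pool.Agent.R526.AA.Short

/-!
Blocks of integers with a small prime factor near almost all the elements of a set of integers
with a level of distribution.
-/

set_option autoImplicit false

open Finset Filter Topology

namespace Pool.Agent.R502.LG

open Pool.Agent.H361R2.PP
open Pool.Agent.R526.AA
open Pool.Agent.H20R2.EQI

/-- distribution of `S` in the residue classes to all moduli at most `Q` -/
def Lv (S : Finset ℕ) (Q E : ℝ) : Prop := ∀ q : ℕ, 1 ≤ q → (q : ℝ) ≤ Q → ∀ r : ℕ,
  |((S.filter (fun n => n ≡ r [MOD q])).card : ℝ) - (S.card : ℝ) / q| ≤ E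

open Classical in
theorem eqdS (X b : ℕ) (hX : 16 ≤ X) (hb : b < Wm X) (S : Finset ℕ) (E : ℝ) (hE : 0 ≤ E)
    (hS : Lv S X E) (P : Finset ℕ) (hP : ∀ p ∈ P, p.Prime ∧ HH X < p) :
    Eqd none P (S.filter (fun n => n % Wm X = b)) ((S.card : ℝ) / Wm X)
      (fun D => if ∏ p ∈ D, (p : ℝ) ≤ (X : ℝ) ^ (1 / 2 - 1 / 32 : ℝ) then E else S.card) := by
  refine ⟨?_, fun D => ?_, ?_⟩
  · intro n _ p _ a ha
    simp at ha
  · simp only
    split_ifs
    · exact hE
    · exact Nat.cast_nonneg _
  · intro D hD r _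
    have hDp : ∀ p ∈ D, p.Prime ∧ HH X < p := fun p hp => hP p (hD hp)
    have hcop := cop_W X D hDp
    have hWpos : 0 < Wm X := primorial_pos _
    have hDpos : 0 < ∏ p ∈ D, p := Finset.prod_pos (fun p hp => (hDp p hp).1.pos)
    have hWr : (1 : ℝ) ≤ Wm X := by exact_mod_cast hWpos
    have hDr : (1 : ℝ) ≤ ((∏ p ∈ D, p : ℕ) : ℝ) := by exact_mod_cast hDpos
    obtain ⟨v, hv1, hv2⟩ := Nat.chineseRemainder hcop b r
    have hset : (S.filter (fun n => n % Wm X = b)).filter
        (fun n => ∀ p ∈ D, n % p = r % p) =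
        S.filter (fun n => n ≡ v [MOD Wm X * ∏ p ∈ D, p]) := by
      rw [filter_filter]
      apply filter_congr
      intro n _
      rw [modD D (fun p hp => (hDp p hp).1) n r, ← Nat.modEq_and_modEq_iff_modEq_mul hcop]
      have hbb : b % Wm X = b := Nat.mod_eq_of_lt hb
      constructor
      · rintro ⟨h1, h2⟩
        refine ⟨?_, h2.trans hv2.symm⟩
        have : n ≡ b [MOD Wm X] := by unfold Nat.ModEq; rw [h1, hbb]
        exact this.trans hv1.symm
      · rintro ⟨h1, h2⟩
        refine ⟨?_, h2.trans hv2⟩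
        have : n ≡ b [MOD Wm X] := h1.trans hv1
        unfold Nat.ModEq at this
        rw [this, hbb]
    rw [hset]
    have hph : ∏ p ∈ D, ph none p = ((∏ p ∈ D, p : ℕ) : ℝ) := by
      push_cast
      apply prod_congr rfl
      intro p _
      simp [ph]
    rw [hph, div_div, ← Nat.cast_mul]
    simp only
    split_ifs with h
    · apply hS _ (Nat.mul_pos hWpos hDpos)
      have hX16 : (16 : ℝ) ≤ X := by exact_mod_cast hX
      have hX0 : (0 : ℝ) < X := by linarith
      have hW := W_le X hX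
      have hlog : Real.log X ≤ (X : ℝ) ^ (1 / 2 : ℝ) := by
        have h1 := Real.log_le_sub_one_of_pos (show 0 < (X : ℝ) ^ (1 / 4 : ℝ) by positivity)
        rw [Real.log_rpow hX0] at h1
        have h2 : (X : ℝ) ^ (1 / 2 : ℝ) = (X : ℝ) ^ (1 / 4 : ℝ) * (X : ℝ) ^ (1 / 4 : ℝ) := by
          rw [← Real.rpow_add hX0]; norm_num
        rw [h2]
        nlinarith [sq_nonneg ((X : ℝ) ^ (1 / 4 : ℝ) - 2)]
      push_cast
      calc (Wm X : ℝ) * ∏ p ∈ D, (p : ℝ) ≤ (X : ℝ) ^ (1 / 2 : ℝ) * (X : ℝ) ^ (1 / 2 - 1 / 32 : ℝ) := by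
            apply mul_le_mul (hW.trans hlog) h _ (by positivity)
            exact prod_nonneg fun _ _ => Nat.cast_nonneg _
        _ = (X : ℝ) ^ (1 / 2 + (1 / 2 - 1 / 32) : ℝ) := by rw [← Real.rpow_add hX0]
        _ ≤ (X : ℝ) ^ (1 : ℝ) := Real.rpow_le_rpow_of_exponent_le (by linarith) (by norm_num)
        _ = X := Real.rpow_one _
    · rw [abs_le]
      have h1 : ((S.filter (fun n => n ≡ v [MOD Wm X * ∏ p ∈ D, p])).card : ℝ) ≤ S.card := by
        exact_mod_cast card_filter_le _ _
      have h2 : (0 : ℝ) ≤ ((S.filter (fun n => n ≡ v [MOD Wm X * ∏ p ∈ D, p])).card : ℝ) :=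
        Nat.cast_nonneg _
      have h3 : (1 : ℝ) ≤ ((Wm X * ∏ p ∈ D, p : ℕ) : ℝ) := by
        exact_mod_cast Nat.mul_pos hWpos hDpos
      have h4 : (S.card : ℝ) / ((Wm X * ∏ p ∈ D, p : ℕ) : ℝ) ≤ S.card :=
        div_le_self (Nat.cast_nonneg _) h3
      have h5 : 0 ≤ (S.card : ℝ) / ((Wm X * ∏ p ∈ D, p : ℕ) : ℝ) := by positivity
      constructor <;> linarith

open Classical in
/-- for almost all `n ∈ S` one of the first `k` blocks of length `l` after `n` consists of integers
with a prime factor at most `X` -/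
theorem basicS (μ ε Dx : ℝ) (hμ : 0 < μ) (hε : 0 < ε) (hε1 : ε ≤ 1) (hDx : 0 ≤ Dx) :
    ∃ k : ℕ, 0 < k ∧ ∃ X₀ : ℕ, ∀ X : ℕ, X₀ ≤ X → ∀ (S : Finset ℕ) (l : ℕ),
      (∀ n ∈ S, (n : ℝ) + X ≤ (X : ℝ) ^ Dx) → Lv S X ((S.card : ℝ) / X) →
      (l : ℝ) ≤ μ * Real.log X →
      ((S.filter (fun n => ¬ ∃ i < k, Fre X l n i)).card : ℝ) ≤ ε * S.card := by
  obtain ⟨Kq, Aq, k, hk, hA⟩ := almost (2 * μ) ε Dx (by linarith) hε hε1 hDx
  have hΛ : 0 < (k : ℝ) * μ + μ := by positivity
  obtain ⟨X1, hX1⟩ := hA (k * μ + μ) hΛ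
  obtain ⟨X2, hX2⟩ := err_sum Kq Aq
  obtain ⟨X3, hX3⟩ := Bk_card μ hμ (k * μ + μ) hΛ
  refine ⟨k, hk, X1 + X2 + X3 + 16, fun X hX S l hx hS hl => ?_⟩
  have hW := Wm_pos X
  have hWr : (0 : ℝ) < Wm X := by exact_mod_cast hW
  have hX16 : (16 : ℝ) ≤ X := by exact_mod_cast (by omega : 16 ≤ X)
  have hXr : (0 : ℝ) < X := by linarith
  have hL : 0 < Real.log X := Real.log_pos (by linarith)
  rcases S.eq_empty_or_nonempty with rfl | hSne
  · simp
  have hSpos : (0 : ℝ) < S.card := by exact_mod_cast hSne.card_pos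
  have hHX : HH X ≤ X := by
    have h1 : ((HH X : ℕ) : ℝ) ≤ X := by
      have h2 : Real.log X ≤ X := (Real.log_le_sub_one_of_pos hXr).trans (by linarith)
      have h3 : Real.log (Real.log X) ≤ Real.log X :=
        (Real.log_le_sub_one_of_pos hL).trans (by linarith)
      have h4 : (0 : ℝ) ≤ Real.log (Real.log X) / 4 := by
        apply div_nonneg _ (by norm_num)
        apply Real.log_nonneg
        rw [Real.le_log_iff_exp_le hXr]
        have := Real.exp_one_lt_d9
        linarith
      have h5 : ((HH X : ℕ) : ℝ) ≤ Real.log (Real.log X) / 4 := by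
        unfold HH
        exact Nat.floor_le h4
      linarith
    exact_mod_cast h1
  -- one class
  have hcls : ∀ b < Wm X, (1 - ε) * ((S.card : ℝ) / Wm X) ≤
      (((S.filter (fun n => n % Wm X = b)).filter
        (fun n => ∃ i < k, Fre X l n i)).card : ℝ) := by
    intro b hb
    have h1 := hX1 X (by omega) b none (S.filter (fun n => n % Wm X = b))
      ((S.card : ℝ) / Wm X)
      (fun D => if ∏ p ∈ D, (p : ℝ) ≤ (X : ℝ) ^ (1 / 2 - 1 / 32 : ℝ) then (S.card : ℝ) / X
        else S.card) (by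
        intro n hn
        rw [mem_filter] at hn
        exact hx n hn.1) (by positivity)
      (eqdS X b (by omega) hb S ((S.card : ℝ) / X) (by positivity) hS _ (by
        intro p hp
        rw [mem_filter, PX, mem_filter] at hp
        exact hp.1.2))
      (by
        have h2 := hX2 X (by omega)
        calc _ = ∑ D ∈ (PX X).powerset.filter (fun D : Finset ℕ =>
              ∏ p ∈ D, (p : ℝ) ≤ (X : ℝ) ^ (1 / 2 - 1 / 32 : ℝ)),
                ((S.card : ℝ) / X) * ((Kq : ℝ) ^ D.card * (1 : ℝ)) := by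
              apply sum_congr rfl
              intro D hD
              rw [mem_filter] at hD
              rw [if_pos hD.2]
              ring
          _ = ((S.card : ℝ) / X) * ∑ D ∈ (PX X).powerset.filter (fun D : Finset ℕ =>
              ∏ p ∈ D, (p : ℝ) ≤ (X : ℝ) ^ (1 / 2 - 1 / 32 : ℝ)),
                ((Kq : ℝ) ^ D.card * (1 : ℝ)) := by rw [mul_sum]
          _ ≤ ((S.card : ℝ) / X) * ((X : ℝ) / Wm X / Real.log X ^ Aq) :=
              mul_le_mul_of_nonneg_left h2 (by positivity)
          _ = (S.card : ℝ) / Wm X / Real.log X ^ Aq := by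
              field_simp)
      (fun i => Bk X b ⌊((k : ℝ) * μ + μ) * Real.log X⌋₊ 0 l i)
      (fun i => Bk_sub _ _ _ _ _ _)
      (by
        intro i
        apply hX3 X (by omega) b 0 l i hl
        have h2 : ((i : ℕ) : ℝ) ≤ k := by exact_mod_cast i.2.le
        have h3 : ((i : ℕ) : ℝ) * l ≤ k * (μ * Real.log X) := by
          apply mul_le_mul h2 hl (by positivity) (by positivity)
        push_cast
        nlinarith)
      (fun i j hij => Bk_disj (fun h => hij (Fin.ext h)))
      (by intro a ha; simp at ha)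
    refine h1.trans ?_
    apply Nat.cast_le.2
    apply card_le_card
    intro n hn
    rw [mem_filter] at hn ⊢
    refine ⟨hn.1, ?_⟩
    obtain ⟨i, hi⟩ := hn.2
    refine ⟨i, i.2, ?_⟩
    have hnb := (mem_filter.1 hn.1).2
    have := Fre_of (h := 0) (N := ⌊((k : ℝ) * μ + μ) * Real.log X⌋₊) (l := l) (i := i) hHX (by
      rw [zero_add]
      apply Nat.le_floor
      push_cast
      have h2 : ((i : ℕ) : ℝ) + 1 ≤ k := by exact_mod_cast i.2
      have h3 : (((i : ℕ) : ℝ) + 1) * l ≤ k * (μ * Real.log X) := by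
        apply mul_le_mul h2 hl (by positivity) (by positivity)
      nlinarith) hnb hi
    rwa [Nat.add_zero] at this
  -- sum over the classes
  have hfib : (S.filter (fun n => ∃ i < k, Fre X l n i)).card =
      ∑ b ∈ range (Wm X), ((S.filter (fun n => n % Wm X = b)).filter
        (fun n => ∃ i < k, Fre X l n i)).card := by
    rw [card_eq_sum_card_fiberwise (f := fun n => n % Wm X) (t := range (Wm X))]
    · refine sum_congr rfl fun b _ => ?_
      congr 1
      ext n
      simp only [mem_filter]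
      tauto
    · intro n _
      simp only [coe_range, Set.mem_Iio]
      exact Nat.mod_lt _ hW
  have hgood : (1 - ε) * S.card ≤
      ((S.filter (fun n => ∃ i < k, Fre X l n i)).card : ℝ) := by
    rw [hfib]
    push_cast
    calc (1 - ε) * S.card = ∑ b ∈ range (Wm X), (1 - ε) * ((S.card : ℝ) / Wm X) := by
          rw [sum_const, card_range, nsmul_eq_mul]
          field_simp
      _ ≤ _ := sum_le_sum fun b hb => hcls b (mem_range.1 hb)
  have htot := card_filter_add_card_filter_not (s := S) (fun n => ∃ i < k, Fre X l n i)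
  have htot' : ((S.filter (fun n => ∃ i < k, Fre X l n i)).card : ℝ) +
      ((S.filter (fun n => ¬ ∃ i < k, Fre X l n i)).card : ℝ) = S.card := by
    exact_mod_cast htot
  linarith

/-- the level of distribution of a translate -/
theorem Lv_shift {S : Finset ℕ} {Q E : ℝ} (h : Lv S Q E) (s : ℕ) :
    Lv (S.image (fun n => n + s)) Q E := by
  classical
  intro q hq hqQ r
  have hinj : Function.Injective (fun n : ℕ => n + s) := fun a b hab => by
    simp only at hab
    omega
  rw [card_image_of_injective S hinj]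
  obtain ⟨r', hr'⟩ : ∃ r' : ℕ, r' + s ≡ r [MOD q] := by
    refine ⟨r + (q - 1) * s, ?_⟩
    have h1 : r + (q - 1) * s + s = r + q * s := by
      obtain ⟨m, rfl⟩ : ∃ m, q = m + 1 := ⟨q - 1, by omega⟩
      simp
      ring
    rw [h1]
    unfold Nat.ModEq
    simp
  have h2 : ((S.image (fun n => n + s)).filter (fun n => n ≡ r [MOD q])).card =
      (S.filter (fun n => n ≡ r' [MOD q])).card := by
    rw [filter_image, card_image_of_injective _ hinj]
    congr 1
    apply filter_congr
    intro n _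
    constructor
    · intro h3
      exact Nat.ModEq.add_right_cancel' s (h3.trans hr'.symm)
    · intro h3
      exact (h3.add_right s).trans hr'
  rw [h2]
  exact h q hq hqQ r'

open Classical in
/-- the averaging argument over the shifts -/
theorem averagingS (X l k m K : ℕ) (hk : 0 < k) (hm0 : 0 < m) (hm : m * k ≤ K) (S : Finset ℕ)
    (c e : ℝ) (hc : c * K ≤ m / 2)
    (h : ∀ j < m, ((S.filter
      (fun n => ¬ ∃ i < k, Fre X l (n + j * k * l) i)).card : ℝ) ≤ e) :
    ((S.filter (fun n =>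
      (((range K).filter (fun i => Fre X l n i)).card : ℝ) < c * K)).card : ℝ) ≤ 2 * e := by
  set Bd := S.filter (fun n =>
      (((range K).filter (fun i => Fre X l n i)).card : ℝ) < c * K) with hBd
  have hm0' : (0 : ℝ) < m := by exact_mod_cast hm0
  have h1 : ∀ n ∈ Bd, (m : ℝ) / 2 ≤
      (((range m).filter (fun j => ¬ ∃ i < k, Fre X l (n + j * k * l) i)).card : ℝ) := by
    intro n hn
    have h2 := (mem_filter.1 hn).2
    have h3 := groups X l n k m K hk hm
    have h4 := card_filter_add_card_filter_not (s := range m)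
      (fun j => ∃ i < k, Fre X l (n + j * k * l) i)
    rw [card_range] at h4
    have h5 : (((range m).filter (fun j => ∃ i < k, Fre X l (n + j * k * l) i)).card : ℝ) +
        (((range m).filter (fun j => ¬ ∃ i < k, Fre X l (n + j * k * l) i)).card : ℝ) = m := by
      exact_mod_cast h4
    have h6 : (((range m).filter (fun j => ∃ i < k, Fre X l (n + j * k * l) i)).card : ℝ) ≤
        (((range K).filter (fun i => Fre X l n i)).card : ℝ) := by exact_mod_cast h3
    linarith
  have h2 : (Bd.card : ℝ) * (m / 2) ≤ ∑ n ∈ Bd,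
      (((range m).filter (fun j => ¬ ∃ i < k, Fre X l (n + j * k * l) i)).card : ℝ) := by
    rw [← nsmul_eq_mul, ← sum_const]
    exact sum_le_sum h1
  have h3 : ∑ n ∈ Bd,
      (((range m).filter (fun j => ¬ ∃ i < k, Fre X l (n + j * k * l) i)).card : ℝ) ≤
      ∑ j ∈ range m, ((S.filter
        (fun n => ¬ ∃ i < k, Fre X l (n + j * k * l) i)).card : ℝ) := by
    calc ∑ n ∈ Bd,
        (((range m).filter (fun j => ¬ ∃ i < k, Fre X l (n + j * k * l) i)).card : ℝ) ≤
        ∑ n ∈ S,
          (((range m).filter (fun j => ¬ ∃ i < k, Fre X l (n + j * k * l) i)).card : ℝ) :=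
          sum_le_sum_of_subset_of_nonneg (filter_subset _ _) (fun _ _ _ => Nat.cast_nonneg _)
      _ = _ := by
          simp only [card_filter, Nat.cast_sum]
          rw [sum_comm]
  have h5 : (Bd.card : ℝ) * (m / 2) ≤ m * e := by
    refine (h2.trans h3).trans ?_
    calc _ ≤ ∑ j ∈ range m, e := sum_le_sum fun j hj => h j (mem_range.1 hj)
      _ = m * e := by rw [sum_const, card_range, nsmul_eq_mul]
  have h6 : (Bd.card : ℝ) * (m / 2) ≤ (2 * e) * (m / 2) := by linarith
  exact le_of_mul_le_mul_right h6 (by positivity)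

open Classical in
/-- sets of integers with a power level of distribution -/
theorem critS (η D δ lam ε : ℝ) (hη : 0 < η) (hD : 0 ≤ D) (hδ : 0 < δ) (hlam : 0 < lam)
    (hε : 0 < ε) :
    ∃ c : ℝ, 0 < c ∧ ∃ K₀ : ℕ, ∀ K : ℕ, K₀ ≤ K → ∀ᶠ M : ℝ in atTop, ∀ S : Finset ℕ,
      (∀ n ∈ S, (n : ℝ) ≤ M ^ D) → Lv S (M ^ η) (S.card * M ^ (-η)) →
      ∀ l : ℕ, (l : ℝ) ≤ lam * Real.log M →
      ((S.filter (fun n =>
        (((range K).filter (fun i => ∀ m ∈ Ioc (n + i * l)
          (n + (i + 1) * l), ∃ p : ℕ, p.Prime ∧ (p : ℝ) ≤ M ^ δ ∧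
            p ∣ m)).card : ℝ) < c * K)).card : ℝ) ≤ ε * S.card := by
  obtain ⟨τ, hτ⟩ : ∃ τ : ℝ, τ = min (min η δ) 1 := ⟨_, rfl⟩
  have hτ0 : 0 < τ := by rw [hτ]; exact lt_min (lt_min hη hδ) one_pos
  have hτη : τ ≤ η := by rw [hτ]; exact (min_le_left _ _).trans (min_le_left _ _)
  have hτδ : τ ≤ δ := by rw [hτ]; exact (min_le_left _ _).trans (min_le_right _ _)
  have hτ1 : τ ≤ 1 := by rw [hτ]; exact min_le_right _ _
  obtain ⟨k, hk, X₀, hb⟩ := basicS (4 * lam / τ) (min ε 1 / 2) (2 * (D + 2) / τ) (by positivity)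
    (by positivity) (by have := min_le_right ε 1; linarith) (by positivity)
  have hk0 : (0 : ℝ) < k := by exact_mod_cast hk
  refine ⟨1 / (4 * k), by positivity, 2 * k, fun K hK => ?_⟩
  have t1 : Tendsto (fun x : ℝ => x ^ (τ / 2)) atTop atTop :=
    tendsto_rpow_atTop (by positivity)
  have t2 : Tendsto (fun x : ℝ => Real.log x) atTop atTop := Real.tendsto_log_atTop
  have t3 : ∀ᶠ x : ℝ in atTop, (K * (2 * lam) + 2) * Real.log x ≤ x := by
    have h := (isLittleO_log_rpow_atTop (show (0 : ℝ) < 1 by norm_num)).def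
      (show (0 : ℝ) < 1 / (K * (2 * lam) + 2) by positivity)
    filter_upwards [h, eventually_ge_atTop (1 : ℝ)] with x hx hx1
    rw [Real.norm_eq_abs, abs_of_nonneg (Real.log_nonneg hx1), Real.norm_eq_abs,
      abs_of_nonneg (Real.rpow_nonneg (by linarith) _), Real.rpow_one] at hx
    calc (K * (2 * lam) + 2) * Real.log x ≤ (K * (2 * lam) + 2) *
          (1 / (K * (2 * lam) + 2) * x) := by gcongr
      _ = x := by field_simp
  filter_upwards [t1.eventually_ge_atTop (max 2 (X₀ + 1)), t2.eventually_ge_atTop (1 / lam + 1), t3,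
    eventually_ge_atTop (16 : ℝ)] with M e1 e2 e3 e4
  intro S hSD hSL l hll
  have hM0 : 0 < M := by linarith
  have hM1 : 1 ≤ M := by linarith
  set y := M ^ (τ / 2) with hy
  have hy2 : 2 ≤ y := (le_max_left _ _).trans e1
  have hyX : (X₀ : ℝ) + 1 ≤ y := (le_max_right _ _).trans e1
  have hyy : M ^ τ = y * y := by
    rw [hy, ← Real.rpow_add hM0]
    congr 1
    ring
  have hXl : y ≤ (⌊M ^ τ⌋₊ : ℝ) := by
    have h5 := Nat.lt_floor_add_one (M ^ τ)
    rw [hyy] at h5 ⊢
    nlinarith
  have hXu : (⌊M ^ τ⌋₊ : ℝ) ≤ M ^ τ := Nat.floor_le (by positivity)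
  set X := ⌊M ^ τ⌋₊ with hX
  have hX0' : (0 : ℝ) < X := by linarith
  have hL : 0 < Real.log M := Real.log_pos (by linarith)
  have hlogX : τ / 2 * Real.log M ≤ Real.log X := by
    rw [← Real.log_rpow hM0]
    exact Real.log_le_log (by positivity) hXl
  have hl1 : 1 ≤ lam * Real.log M := by
    have h6 : 1 / lam ≤ Real.log M := by linarith
    rw [div_le_iff₀ hlam] at h6
    linarith
  have hceil : (l : ℝ) ≤ 2 * (lam * Real.log M) := by linarith
  have hXX₀ : X₀ ≤ X := by
    have : (X₀ : ℝ) ≤ X := by linarith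
    exact_mod_cast this
  have hXη : (X : ℝ) ≤ M ^ η := hXu.trans (Real.rpow_le_rpow_of_exponent_le hM1 hτη)
  have hXδ : (X : ℝ) ≤ M ^ δ := hXu.trans (Real.rpow_le_rpow_of_exponent_le hM1 hτδ)
  have hXM : (X : ℝ) ≤ M := by
    refine hXu.trans ?_
    calc M ^ τ ≤ M ^ (1 : ℝ) := Real.rpow_le_rpow_of_exponent_le hM1 hτ1
      _ = M := Real.rpow_one M
  have hlog1 : 1 ≤ Real.log M := by
    have : 0 < 1 / lam := by positivity
    linarith
  have hKl : (K : ℝ) * l ≤ M - 2 * Real.log M := by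
    have h7 : (K : ℝ) * l ≤ K * (2 * (lam * Real.log M)) :=
      mul_le_mul_of_nonneg_left hceil (Nat.cast_nonneg _)
    nlinarith
  set m := K / k with hm
  have hmk : m * k ≤ K := Nat.div_mul_le_self _ _
  have hm2 : 2 ≤ m := by
    rw [hm, Nat.le_div_iff_mul_le hk]
    exact hK
  have hmK : (K : ℝ) ≤ 2 * m * k := by
    have h1 : K < (m + 1) * k := by
      rw [hm, mul_comm]
      exact Nat.lt_mul_div_succ K hk
    have h2 : K ≤ 2 * m * k := by nlinarith
    exact_mod_cast h2
  have hav := averagingS X l k m K hk (by omega) hmk S (1 / (4 * k))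
    (min ε 1 / 2 * S.card) (by
      rw [div_mul_eq_mul_div, one_mul, div_le_iff₀ (by positivity)]
      linarith) (by
    intro j hj
    have hjk : ((j * k * l : ℕ) : ℝ) ≤ (K : ℝ) * l := by
      have h1 : j * k ≤ K := (Nat.mul_le_mul_right k hj.le).trans hmk
      have h2 : j * k * l ≤ K * l := Nat.mul_le_mul_right l h1
      exact_mod_cast h2
    have hinj : Function.Injective (fun n : ℕ => n + j * k * l) := fun a b hab => by
      simp only at hab
      omega
    have h1 := hb X hXX₀ (S.image (fun n => n + j * k * l)) l (by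
      intro n hn
      rw [mem_image] at hn
      obtain ⟨n', hn', rfl⟩ := hn
      have h2 := hSD n' hn'
      have h3 : M ^ (D + 2) ≤ (X : ℝ) ^ (2 * (D + 2) / τ) := by
        calc M ^ (D + 2) = y ^ (2 * (D + 2) / τ) := by
              rw [hy, ← Real.rpow_mul hM0.le]
              congr 1
              field_simp
          _ ≤ _ := Real.rpow_le_rpow (by positivity) hXl (by positivity)
      refine le_trans ?_ h3
      have h4 : M ^ (D + 2) = M ^ D * (M * M) := by
        rw [Real.rpow_add hM0, Real.rpow_two]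
        ring
      have h5 : (1 : ℝ) ≤ M ^ D := Real.one_le_rpow hM1 hD
      rw [h4]
      have h6 : ((n' + j * k * l : ℕ) : ℝ) = n' + ((j * k * l : ℕ) : ℝ) := by push_cast; ring
      rw [h6]
      have h7 : (n' : ℝ) + ((j * k * l : ℕ) : ℝ) + X ≤ M ^ D + M + M := by linarith
      refine h7.trans ?_
      have h8 : (16 : ℝ) * M ≤ M * M := by nlinarith
      nlinarith [mul_nonneg (sub_nonneg.2 h5) (show 0 ≤ M * M - 1 by nlinarith)]) (by
      have h2 := Lv_shift hSL (j * k * l)
      rw [card_image_of_injective S hinj]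
      intro q hq hqX r
      refine (h2 q hq (hqX.trans hXη) r).trans ?_
      rw [Real.rpow_neg hM0.le, div_eq_mul_inv]
      apply mul_le_mul_of_nonneg_left _ (Nat.cast_nonneg _)
      apply inv_anti₀ hX0' hXη) (by
      refine hceil.trans ?_
      calc 2 * (lam * Real.log M) = (4 * lam / τ) * (τ / 2 * Real.log M) := by
            field_simp
            norm_num
        _ ≤ _ := mul_le_mul_of_nonneg_left hlogX (by positivity))
    rw [card_image_of_injective S hinj] at h1
    refine le_trans ?_ h1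
    rw [filter_image, card_image_of_injective _ hinj])
  have h7 : ((S.filter (fun n =>
        (((range K).filter (fun i => ∀ m ∈ Ioc (n + i * l)
          (n + (i + 1) * l), ∃ p : ℕ, p.Prime ∧ (p : ℝ) ≤ M ^ δ ∧
            p ∣ m)).card : ℝ) < 1 / (4 * k) * K)).card : ℝ) ≤
      ((S.filter (fun n =>
        (((range K).filter (fun i => Fre X l n i)).card : ℝ) < 1 / (4 * k) * K)).card : ℝ) := by
    apply Nat.cast_le.2
    apply card_le_card
    intro n hn
    rw [mem_filter] at hn
    rw [mem_filter]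
    refine ⟨hn.1, lt_of_le_of_lt ?_ hn.2⟩
    apply Nat.cast_le.2
    apply card_le_card
    intro i hi
    have hi' := (@mem_filter _ _ (_) _ _).1 hi
    refine (@mem_filter _ _ (_) _ _).2 ⟨hi'.1, ?_⟩
    intro q hq
    rw [mem_Ioc] at hq
    obtain ⟨p, hp, hpX, hpd⟩ := hi'.2 q hq.1 hq.2
    refine ⟨p, hp, ?_, hpd⟩
    have : (p : ℝ) ≤ X := by exact_mod_cast hpX
    exact this.trans hXδ
  refine (h7.trans hav).trans ?_
  have h8 : min ε 1 ≤ ε := min_le_left _ _
  have h9 : (0 : ℝ) ≤ S.card := Nat.cast_nonneg _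
  nlinarith

end Pool.Agent.R502.LG
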