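import Pool.Agent.R502.LG.Set
import Pool.Agent.TH915.PW.Crit

/-!
Blocks of integers with a small prime factor after almost all the terms of a sequence of real
numbers with small exponential sums.
-/

set_option autoImplicit false

open Finset Filter Topology

namespace Pool.Agent.R502.LG

open Pool.Agent.TH915.PW
open Pool.Agent.H469R2.NK (e norm_e e_add)

/-- distribution of the integer parts from exponential sums -/
theorem Lv_exp : ∃ X₀ : ℝ, ∀ X : ℝ, X₀ ≤ X → ∀ (s : Finset ℕ) (a : ℕ → ℝ), (∀ i ∈ s, 0 ≤ a i) →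
    Set.InjOn (fun i => ⌊a i⌋₊) s →
    (∀ q h : ℕ, 1 ≤ q → (q : ℝ) ≤ X → 1 ≤ h → (h : ℝ) ≤ X ^ 4 →
      ‖∑ i ∈ s, e ((h : ℝ) / q * a i)‖ ≤ s.card * X ^ (-4 : ℝ)) →
    Lv (s.image (fun i => ⌊a i⌋₊)) X ((s.image (fun i => ⌊a i⌋₊)).card * (30 * X ^ (-1 : ℝ))) := by
  have e1 : ∀ᶠ X : ℝ in atTop, (X + 1) ^ 3 ≤ X ^ 4 := by
    filter_upwards [eventually_ge_atTop (8 : ℝ)] with X hX
    have h2 : (X + 1) ^ 3 ≤ (2 * X) ^ 3 := pow_le_pow_left₀ (by linarith) (by linarith) 3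
    have h3 : (0 : ℝ) ≤ X ^ 3 := by positivity
    nlinarith
  obtain ⟨X₂, h2⟩ := eventually_atTop.mp e1
  refine ⟨max 1 X₂, ?_⟩
  intro X hX s a ha hinj hE
  have b1 := h2 X ((le_max_right _ _).trans hX)
  have b5 : 1 ≤ X := (le_max_left _ _).trans hX
  have hX0 : 0 < X := by linarith
  have hcard : (s.image (fun i => ⌊a i⌋₊)).card = s.card := card_image_of_injOn hinj
  rw [hcard]
  intro q hq hqX r
  rw [hcard]
  have hq0 : (0 : ℝ) < q := by exact_mod_cast hq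
  have hqi : (0 : ℤ) < q := by exact_mod_cast hq
  set K : ℕ := ⌈X⌉₊ with hK
  have hK1 : 1 ≤ K := Nat.one_le_ceil_iff.mpr hX0
  have hKX : X ≤ K := Nat.le_ceil _
  have hKX2 : (K : ℝ) ≤ X + 1 := (Nat.ceil_lt_add_one hX0.le).le
  have hK3 : (K : ℝ) ^ 3 ≤ X ^ 4 := (pow_le_pow_left₀ (Nat.cast_nonneg _) hKX2 3).trans b1
  set r' : ℤ := (r : ℤ) % q with hr'
  have hr0 : 0 ≤ r' := Int.emod_nonneg _ hqi.ne'
  have hr1 : r' < q := Int.emod_lt_of_pos _ hqi
  have hr1' : (r' : ℝ) + 1 ≤ q := by exact_mod_cast hr1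
  have hr0' : (0 : ℝ) ≤ r' := by exact_mod_cast hr0
  have hd := disc s (fun i => a i / q) K hK1 (s.card * X ^ (-4 : ℝ)) (by positivity) (by
    intro h hh1 hh2
    have := hE q h hq hqX hh1 (by
      have : (h : ℝ) ≤ (K : ℝ) ^ 3 := by exact_mod_cast hh2.le
      exact this.trans hK3)
    refine le_trans (le_of_eq ?_) this
    congr 1
    refine sum_congr rfl fun i _ => ?_
    congr 1
    ring) (r' / q) ((r' + 1) / q) (by positivity)
    (by gcongr; linarith) (by rw [div_le_one hq0]; exact hr1')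
  have hfil : ((s.image (fun i => ⌊a i⌋₊)).filter (fun n => n ≡ r [MOD q])).card =
      (s.filter (fun i => (r' : ℝ) / q ≤ Int.fract (a i / q) ∧
        Int.fract (a i / q) < (r' + 1) / q)).card := by
    rw [filter_image, card_image_of_injOn (hinj.mono (by
      intro x hx
      rw [mem_coe, mem_filter] at hx
      exact hx.1))]
    congr 1
    apply Finset.filter_congr
    intro i hi
    have hai := ha i hi
    have hiff : ⌊a i⌋₊ ≡ r [MOD q] ↔ ⌊a i⌋ % q = r' := by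
      rw [hr', ← Int.natCast_floor_eq_floor hai]
      unfold Nat.ModEq
      constructor
      · intro h
        exact_mod_cast h
      · intro h
        exact_mod_cast h
    rw [hiff]
    set m : ℤ := ⌊a i⌋ / q with hm
    have hdm : (q : ℤ) * m + ⌊a i⌋ % q = ⌊a i⌋ := Int.mul_ediv_add_emod _ _
    set t : ℤ := ⌊a i⌋ % q with ht
    have ht0 : 0 ≤ t := Int.emod_nonneg _ hqi.ne'
    have ht1 : t < q := Int.emod_lt_of_pos _ hqi
    have hfa0 := Int.fract_nonneg (a i)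
    have hfa1 := Int.fract_lt_one (a i)
    have hafl : a i = q * m + t + Int.fract (a i) := by
      have h5 : (⌊a i⌋ : ℝ) + Int.fract (a i) = a i := Int.floor_add_fract _
      have h6 : (⌊a i⌋ : ℝ) = q * m + t := by
        rw [← hdm]; push_cast; ring
      linarith
    have ht1' : (t : ℝ) + 1 ≤ q := by exact_mod_cast ht1
    have ht0' : (0 : ℝ) ≤ t := by exact_mod_cast ht0
    have hfr : Int.fract (a i / q) = (t + Int.fract (a i)) / q := by
      rw [Int.fract_eq_iff]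
      refine ⟨by positivity, ?_, m, ?_⟩
      · rw [div_lt_one hq0]; linarith
      · have : a i / q - (t + Int.fract (a i)) / q = (a i - (t + Int.fract (a i))) / q := by ring
        rw [this, div_eq_iff hq0.ne']
        linarith
    rw [hfr, div_le_div_iff_of_pos_right hq0, div_lt_div_iff_of_pos_right hq0]
    constructor
    · intro h5
      rw [← h5]
      constructor <;> linarith
    · rintro ⟨h5, h6⟩
      have h7 : (r' : ℝ) < t + 1 := by linarith
      have h8 : (t : ℝ) < r' + 1 := by linarith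
      have h7' : r' < t + 1 := by exact_mod_cast h7
      have h8' : t < r' + 1 := by exact_mod_cast h8
      omega
  rw [hfil]
  have e1 : (s.card : ℝ) / q = s.card * ((r' + 1) / q - r' / q) := by
    field_simp
    ring
  rw [e1]
  refine hd.trans ?_
  have e2 : 14 * (s.card : ℝ) / K ≤ 14 * (s.card * X ^ (-1 : ℝ)) := by
    rw [Real.rpow_neg_one, mul_div_assoc]
    apply mul_le_mul_of_nonneg_left _ (by norm_num)
    rw [div_eq_mul_inv]
    gcongr
  have e3 : (K : ℝ) ^ 3 * (s.card * X ^ (-4 : ℝ)) ≤ 8 * (s.card * X ^ (-1 : ℝ)) := by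
    have h5 : (K : ℝ) ^ 3 ≤ 8 * X ^ 3 := by
      calc (K : ℝ) ^ 3 ≤ (2 * X) ^ 3 := pow_le_pow_left₀ (Nat.cast_nonneg _) (by linarith) 3
        _ = _ := by ring
    have h6 : X ^ 3 * X ^ (-4 : ℝ) = X ^ (-1 : ℝ) := by
      rw [← Real.rpow_natCast, ← Real.rpow_add hX0]; norm_num
    calc (K : ℝ) ^ 3 * (s.card * X ^ (-4 : ℝ)) ≤ (8 * X ^ 3) * (s.card * X ^ (-4 : ℝ)) := by gcongr
      _ = 8 * (s.card * (X ^ 3 * X ^ (-4 : ℝ))) := by ring
      _ = _ := by rw [h6]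
  calc _ ≤ 14 * (s.card * X ^ (-1 : ℝ)) + 2 * (8 * (s.card * X ^ (-1 : ℝ))) := by gcongr
    _ = s.card * (30 * X ^ (-1 : ℝ)) := by ring

/-- all the integers of the block number `i` of length `l` after `n` have a prime factor at most
`z` -/
def Free (z : ℝ) (l n i : ℕ) : Prop :=
  ∀ m ∈ Ioc (n + i * l) (n + (i + 1) * l), ∃ p : ℕ, p.Prime ∧ (p : ℝ) ≤ z ∧ p ∣ m

open Classical in
/-- the criterion -/
theorem critE (η D δ lam ε : ℝ) (hη : 0 < η) (hD : 0 ≤ D) (hδ : 0 < δ) (hlam : 0 < lam)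
    (hε : 0 < ε) :
    ∃ c : ℝ, 0 < c ∧ ∃ K₀ : ℕ, ∀ K : ℕ, K₀ ≤ K → ∀ᶠ M : ℝ in atTop, ∀ (s : Finset ℕ) (a : ℕ → ℝ),
      (∀ i ∈ s, 0 ≤ a i ∧ a i ≤ M ^ D) → Set.InjOn (fun i => ⌊a i⌋₊) s →
      (∀ q h : ℕ, 1 ≤ q → (q : ℝ) ≤ M ^ η → 1 ≤ h → (h : ℝ) ≤ M ^ (4 * η) →
        ‖∑ i ∈ s, e ((h : ℝ) / q * a i)‖ ≤ s.card * M ^ (-(4 * η))) →
      ∀ l : ℕ, (l : ℝ) ≤ lam * Real.log M →
      ((s.filter (fun i => (((range K).filter
        (fun j => Free (M ^ δ) l ⌊a i⌋₊ j)).card : ℝ) < c * K)).card : ℝ) ≤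
        ε * s.card := by
  obtain ⟨X₀, hX₀⟩ := Lv_exp
  obtain ⟨c, hc, K₀, hK⟩ := critS (η / 2) D δ lam ε (by positivity) hD hδ hlam hε
  refine ⟨c, hc, K₀, fun K hKK => ?_⟩
  filter_upwards [hK K hKK, (tendsto_rpow_atTop hη).eventually_ge_atTop X₀,
    (tendsto_rpow_atTop (show 0 < η / 2 by positivity)).eventually_ge_atTop 30,
    eventually_ge_atTop (1 : ℝ)] with M h1 h2 h3 h4 s a ha hinj hE l hl
  have hM0 : 0 < M := by linarith
  have h5 := hX₀ (M ^ η) h2 s a (fun i hi => (ha i hi).1) hinj (by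
    intro q h hq hqM hh hhM
    have e4 : (M ^ η) ^ 4 = M ^ (4 * η) := by
      rw [← Real.rpow_natCast, ← Real.rpow_mul hM0.le]
      congr 1
      push_cast
      ring
    have e5 : (M ^ η) ^ (-4 : ℝ) = M ^ (-(4 * η)) := by
      rw [← Real.rpow_mul hM0.le]
      congr 1
      ring
    rw [e4] at hhM
    rw [e5]
    exact hE q h hq hqM hh hhM)
  have h6 := h1 (s.image (fun i => ⌊a i⌋₊)) (by
    intro n hn
    rw [mem_image] at hn
    obtain ⟨i, hi, rfl⟩ := hn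
    exact (Nat.floor_le (ha i hi).1).trans (ha i hi).2) (by
    intro q hq hqM r
    refine (h5 q hq (hqM.trans (Real.rpow_le_rpow_of_exponent_le h4 (by linarith))) r).trans ?_
    apply mul_le_mul_of_nonneg_left _ (Nat.cast_nonneg _)
    have e6 : (M ^ η) ^ (-1 : ℝ) = M ^ (-(η / 2)) * M ^ (-(η / 2)) := by
      rw [← Real.rpow_mul hM0.le, ← Real.rpow_add hM0]
      congr 1
      ring
    have e7 : 30 * M ^ (-(η / 2)) ≤ 1 := by
      rw [Real.rpow_neg hM0.le]
      calc 30 * (M ^ (η / 2))⁻¹ ≤ M ^ (η / 2) * (M ^ (η / 2))⁻¹ := by gcongr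
        _ = 1 := mul_inv_cancel₀ (by positivity)
    rw [e6]
    calc 30 * (M ^ (-(η / 2)) * M ^ (-(η / 2))) = (30 * M ^ (-(η / 2))) * M ^ (-(η / 2)) := by ring
      _ ≤ 1 * M ^ (-(η / 2)) := by gcongr
      _ = _ := one_mul _) l hl
  rw [card_image_of_injOn hinj] at h6
  refine le_trans ?_ h6
  rw [filter_image, card_image_of_injOn (hinj.mono (by
    intro x hx
    rw [mem_coe, mem_filter] at hx
    exact hx.1))]
  apply le_of_eq
  congr 1

end Pool.Agent.R502.LG
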