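import Pool.Agent.R502.LG.Poly
import Pool.Agent.R502.LG.LogPow

set_option autoImplicit false

/-! Final forms. -/

namespace Pool.Agent.R502.LG

open Finset Filter Topology
open Pool.Agent.TH915.PW
open Pool.Agent.Y719.LP

lemma cntF_mono {z z' : ℝ} (hz : z ≤ z') (l K n : ℕ) : cntF z l K n ≤ cntF z' l K n := by
  classical
  unfold cntF
  apply card_le_card
  intro j hj
  have hj' := (@mem_filter _ _ (_) _ _).1 hj
  refine (@mem_filter _ _ (_) _ _).2 ⟨hj'.1, ?_⟩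
  intro m hm
  obtain ⟨p, hp, hpz, hpm⟩ := hj'.2 m hm
  exact ⟨p, hp, hpz.trans hz, hpm⟩

lemma excF_mono (a : ℕ → ℝ) {z z' : ℝ} (hz : z ≤ z') (l K N L : ℕ) (c : ℝ) :
    excF a z' l K N L c ≤ excF a z l K N L c := by
  unfold excF
  apply card_le_card
  intro n hn
  rw [mem_filter] at hn ⊢
  refine ⟨hn.1, lt_of_le_of_lt ?_ hn.2⟩
  exact_mod_cast cntF_mono hz l K _

theorem final_logpow (F : Finset (ℝ × ℝ)) (a : ℝ × ℝ → ℝ)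
    (hsup : Tendsto (fun t : ℝ => (∑ z ∈ F, a z * t ^ z.1 * (Real.log t) ^ z.2) / t) atTop atTop)
    (hterm : ∃ z ∈ F, a z ≠ 0 ∧ 0 < z.1 ∧ ((∀ m : ℕ, z.1 ≠ m) ∨ z.2 ≠ 0)) :
    ∃ δ₀ : ℝ, 0 < δ₀ ∧ ∀ δ lam ε : ℝ, 0 < δ → 0 < lam → 0 < ε →
      ∃ c : ℝ, 0 < c ∧ ∃ K₀ : ℕ, ∀ K : ℕ, K₀ ≤ K → ∃ N₀ : ℕ, ∀ N L : ℕ, N₀ ≤ N →
        (N : ℝ) ^ (1 - δ₀) ≤ L → L ≤ N →
        (excF (fun n => ∑ z ∈ F, a z * (n : ℝ) ^ z.1 * (Real.log n) ^ z.2) ((N : ℝ) ^ δ)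
          ⌈lam * Real.log N⌉₊ K N L c : ℝ) ≤ ε * L := by
  obtain ⟨δ₀, hδ₀, h⟩ := logpow_long F a hsup hterm
  refine ⟨δ₀, hδ₀, fun δ lam ε hδ hlam hε => ?_⟩
  obtain ⟨c, hc, K₀, hK⟩ := h δ (2 * lam) ε hδ (by linarith) hε
  refine ⟨c, hc, K₀, fun K hKK => ?_⟩
  obtain ⟨M₀, hM₀⟩ := eventually_atTop.1 ((hK K hKK).and
    (Real.tendsto_log_atTop.eventually_ge_atTop (1 / lam)))
  refine ⟨⌈M₀⌉₊, fun N L hN hL1 hL2 => ?_⟩
  have hNM : M₀ ≤ N := (Nat.le_ceil _).trans (by exact_mod_cast hN)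
  obtain ⟨h1, h2⟩ := hM₀ N hNM
  have hp : (0 : ℝ) ≤ (N : ℝ) ^ (1 - δ₀) := Real.rpow_nonneg (Nat.cast_nonneg _) _
  have h3 := h1 L (by linarith) (by exact_mod_cast hL2) ⌈lam * Real.log N⌉₊ (by
    have h4 : 1 ≤ lam * Real.log N := by
      rw [div_le_iff₀ hlam] at h2
      linarith
    have := Nat.ceil_lt_add_one (show 0 ≤ lam * Real.log N by linarith)
    linarith)
  rw [Nat.floor_natCast] at h3
  exact h3

theorem final_poly (f : Polynomial ℝ) (hlc : 0 < f.leadingCoeff) (hd : 2 ≤ f.natDegree)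
    (h : ∃ i, 1 ≤ i ∧ Irrational (f.coeff i)) (hL : ∀ i, 1 ≤ i → ¬ Liouville (f.coeff i)) :
    ∀ θ δ lam ε : ℝ, 0 < θ → 0 < δ → 0 < lam → 0 < ε →
      ∃ c : ℝ, 0 < c ∧ ∃ K₀ : ℕ, ∀ K : ℕ, K₀ ≤ K → ∃ N₀ : ℕ, ∀ N L : ℕ, N₀ ≤ N →
        (N : ℝ) ^ θ ≤ L → L ≤ N →
        (excF (fun n => f.eval (n : ℝ)) ((N : ℝ) ^ δ) ⌈lam * Real.log N⌉₊ K N L c : ℝ) ≤
          ε * L := by
  intro θ δ lam ε hθ hδ hlam hε
  obtain ⟨k, hk, hrat, hd1⟩ := top_irrational f h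
  obtain ⟨τ, hτ0, hτ1, hGS⟩ := GS_eventually hk (hL (k + 1) (by omega))
  obtain ⟨c, hc, K₀, hK⟩ := poly_long f hlc hd k hrat τ hτ0 hτ1 (1 / θ) δ (2 * lam / θ) ε
    (by positivity) hδ (by positivity) hε
  refine ⟨c, hc, K₀, fun K hKK => ?_⟩
  obtain ⟨Z₀, hZ₀⟩ := eventually_atTop.1 (hGS.and (hK K hKK))
  have t1 : Tendsto (fun x : ℝ => x ^ θ) atTop atTop := tendsto_rpow_atTop hθ
  obtain ⟨M₀, hM₀⟩ := eventually_atTop.1 ((t1.eventually_ge_atTop (max Z₀ 1)).and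
    ((Real.tendsto_log_atTop.eventually_ge_atTop (1 / lam)).and (eventually_ge_atTop (1 : ℝ))))
  refine ⟨⌈M₀⌉₊, fun N L hN hL1 hL2 => ?_⟩
  have hNM : M₀ ≤ N := (Nat.le_ceil _).trans (by exact_mod_cast hN)
  obtain ⟨h1, h2, h3⟩ := hM₀ N hNM
  have hN0 : (0 : ℝ) < N := by linarith
  have hLZ : Z₀ ≤ L := ((le_max_left _ _).trans h1).trans hL1
  have hL1' : (1 : ℝ) ≤ L := ((le_max_right _ _).trans h1).trans hL1
  obtain ⟨h4, h5⟩ := hZ₀ L hLZ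
  have hLN : (L : ℝ) ≤ N := by exact_mod_cast hL2
  have h6 := h5 h4 N hLN (by
    calc (N : ℝ) = ((N : ℝ) ^ θ) ^ (1 / θ) := by
          rw [← Real.rpow_mul hN0.le, mul_one_div_cancel hθ.ne', Real.rpow_one]
      _ ≤ (L : ℝ) ^ (1 / θ) := Real.rpow_le_rpow (by positivity) hL1 (by positivity))
    ⌈lam * Real.log N⌉₊ (by
    have h7 : 1 ≤ lam * Real.log N := by
      rw [div_le_iff₀ hlam] at h2
      linarith
    have h8 := Nat.ceil_lt_add_one (show 0 ≤ lam * Real.log N by linarith)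
    have h9 : θ * Real.log N ≤ Real.log L := by
      rw [← Real.log_rpow hN0]
      exact Real.log_le_log (by positivity) hL1
    calc (⌈lam * Real.log N⌉₊ : ℝ) ≤ 2 * (lam * Real.log N) := by linarith
      _ = 2 * lam / θ * (θ * Real.log N) := by field_simp
      _ ≤ _ := mul_le_mul_of_nonneg_left h9 (by positivity))
  rw [Nat.floor_natCast, Nat.floor_natCast] at h6
  refine le_trans ?_ h6
  have h10 : (L : ℝ) ^ δ ≤ (N : ℝ) ^ δ := Real.rpow_le_rpow (by linarith) hLN hδ.le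
  exact_mod_cast excF_mono _ h10 _ _ _ _ _

theorem final_crit (η D δ lam ε : ℝ) (hη : 0 < η) (hD : 0 < D) (hδ : 0 < δ) (hlam : 0 < lam)
    (hε : 0 < ε) :
    ∃ c : ℝ, 0 < c ∧ ∃ K₀ : ℕ, ∀ K : ℕ, K₀ ≤ K → ∃ M₀ : ℝ, ∀ M : ℝ, M₀ ≤ M → ∀ S : Finset ℕ,
      (∀ n ∈ S, (n : ℝ) ≤ M ^ D) →
      (∀ q : ℕ, 1 ≤ q → (q : ℝ) ≤ M ^ η → ∀ r : ℕ,
        |((S.filter (fun n => n ≡ r [MOD q])).card : ℝ) - (S.card : ℝ) / q| ≤
          S.card * M ^ (-η)) →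
      ((S.filter (fun n => (cntF (M ^ δ) ⌈lam * Real.log M⌉₊ K n : ℝ) < c * K)).card : ℝ) ≤
        ε * S.card := by
  obtain ⟨c, hc, K₀, hK⟩ := critS η D δ (2 * lam) ε hη hD.le hδ (by linarith) hε
  refine ⟨c, hc, K₀, fun K hKK => ?_⟩
  obtain ⟨M₀, hM₀⟩ := eventually_atTop.1 ((hK K hKK).and
    (Real.tendsto_log_atTop.eventually_ge_atTop (1 / lam)))
  refine ⟨M₀, fun M hM S hS hSL => ?_⟩
  obtain ⟨h1, h2⟩ := hM₀ M hM
  have h3 := h1 S hS hSL ⌈lam * Real.log M⌉₊ (by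
    have h4 : 1 ≤ lam * Real.log M := by
      rw [div_le_iff₀ hlam] at h2
      linarith
    have := Nat.ceil_lt_add_one (show 0 ≤ lam * Real.log M by linarith)
    linarith)
  refine le_trans (le_of_eq ?_) h3
  unfold cntF Free
  congr 2

end Pool.Agent.R502.LG
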