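import Pool.Agent.TH915.PW.PolyMain
import Pool.Agent.R502.LG.Smooth

set_option autoImplicit false

/-! Blocks free of rough numbers after almost all the values of real polynomials (the exponential
sums are those of `Pool/Agent/TH915/PW/PolyMain.lean`). -/

namespace Pool.Agent.R502.LG

open Finset Filter Topology
open Pool.Agent.TH915.PW
open Pool.Agent.H469R2.NK (e norm_e e_add Cq Cq_pos)
open Pool.Agent.W147.PS (ff ff_compare ev_pow)

/-- growth of the polynomial -/
lemma poly_up (f : Polynomial ℝ) : ∀ᶠ t : ℝ in atTop, f.eval t ≤ t ^ ((f.natDegree : ℝ) + 1) := by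
  have h1 : Tendsto (fun t : ℝ => f.eval t / (Polynomial.X ^ (f.natDegree + 1) : Polynomial ℝ).eval t)
      atTop (𝓝 0) := by
    apply Polynomial.div_tendsto_atTop_zero_of_degree_lt
    rw [Polynomial.degree_X_pow]
    exact lt_of_le_of_lt Polynomial.degree_le_natDegree (by exact_mod_cast Nat.lt_succ_self _)
  filter_upwards [h1.eventually (gt_mem_nhds one_pos), eventually_gt_atTop (0 : ℝ)] with t h2 h3
  simp only [Polynomial.eval_pow, Polynomial.eval_X] at h2
  rw [div_lt_one (by positivity)] at h2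
  rw [show ((f.natDegree : ℝ) + 1) = ((f.natDegree + 1 : ℕ) : ℝ) by push_cast; ring,
    Real.rpow_natCast]
  exact h2.le

lemma poly_inc (f : Polynomial ℝ) (hlc : 0 < f.leadingCoeff) (hd : 2 ≤ f.natDegree) :
    ∀ᶠ t : ℝ in atTop, f.eval t + 1 ≤ f.eval (t + 1) := by
  have hdeg : f.derivative.natDegree = f.natDegree - 1 := Polynomial.natDegree_derivative f
  have hlc' : 0 < f.derivative.leadingCoeff := by
    unfold Polynomial.leadingCoeff
    rw [hdeg, Polynomial.coeff_derivative]
    have e1 : f.natDegree - 1 + 1 = f.natDegree := by omega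
    rw [e1]
    apply mul_pos hlc
    have : (0 : ℝ) ≤ ((f.natDegree - 1 : ℕ) : ℝ) := Nat.cast_nonneg _
    linarith
  have h1 : Tendsto (fun t : ℝ => f.derivative.eval t) atTop atTop := by
    apply Polynomial.tendsto_atTop_of_leadingCoeff_nonneg
    · exact Polynomial.natDegree_pos_iff_degree_pos.1 (by omega)
    · exact hlc'.le
  obtain ⟨t₀, ht₀⟩ := eventually_atTop.1 (h1.eventually_ge_atTop 1)
  filter_upwards [eventually_ge_atTop t₀] with t ht
  obtain ⟨ξ, hξ, hξ2⟩ := exists_hasDerivAt_eq_slope (fun x => f.eval x) (fun x => f.derivative.eval x)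
    (show t < t + 1 by linarith) f.continuous.continuousOn
    (fun x _ => f.hasDerivAt x)
  have h2 := ht₀ ξ (ht.trans hξ.1.le)
  rw [hξ2, show t + 1 - t = 1 by ring, div_one] at h2
  linarith

set_option maxHeartbeats 4000000 in
/-- the theorem at a good scale -/
theorem poly_long (f : Polynomial ℝ) (hlc : 0 < f.leadingCoeff) (hd2 : 2 ≤ f.natDegree) (k : ℕ)
    (hrat : ∀ i, k + 1 < i → ∃ r : ℚ, f.coeff i = r) (τ : ℝ) (hτ0 : 0 < τ) (hτ1 : τ ≤ 1 / 2) :
    ∀ A δ₁ lam ε : ℝ, 0 ≤ A → 0 < δ₁ → 0 < lam → 0 < ε → ∃ c : ℝ, 0 < c ∧ ∃ K₀ : ℕ,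
      ∀ K : ℕ, K₀ ≤ K → ∀ᶠ Z : ℝ in atTop, GS (f.coeff (k + 1)) τ Z → ∀ M : ℝ, Z ≤ M →
      M ≤ Z ^ A → ∀ l : ℕ, (l : ℝ) ≤ lam * Real.log Z →
        (excF (fun n => f.eval (n : ℝ)) (Z ^ δ₁) l K ⌊M⌋₊ ⌊Z⌋₊ c : ℝ) ≤ ε * (⌊Z⌋₊ : ℝ) := by
  intro A δ₁ lam ε hA hδ₁ hlam hε
  have hd : 1 ≤ f.natDegree := by omega
  obtain ⟨g, b, F, hgd, hgj, hb, hfg⟩ := split_poly f (k + 1) hrat
  have hb0 : (0 : ℝ) < b := by exact_mod_cast hb
  have hk0 : (0 : ℝ) ≤ k := Nat.cast_nonneg k
  set σ : ℝ := τ / (8 * (k + 1)) with hσ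
  have hσ0 : 0 < σ := by positivity
  have hσk1 : σ * (k + 1) = τ / 8 := by rw [hσ]; field_simp
  have hσk : σ * k ≤ τ / 8 := by nlinarith
  set δ' : ℝ := σ / 2 ^ k with hδ'
  have hδ'0 : 0 < δ' := by positivity
  have h2k : (1 : ℝ) ≤ 2 ^ k := one_le_pow₀ (by norm_num)
  have hδ'σ : δ' ≤ σ := div_le_self hσ0.le h2k
  set η : ℝ := δ' / 12 with hη
  have hη0 : 0 < η := by positivity
  have hη4 : 4 * η = δ' / 3 := by rw [hη]; ring
  have hησ : η ≤ σ / 12 := by rw [hη]; linarith
  have hσ8 : σ ≤ τ / 8 := by nlinarith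
  have hηk : η * k ≤ τ / 96 := by nlinarith
  obtain ⟨c, hc, K₀, hcritK⟩ := critE η ((A + 1) * ((f.natDegree : ℝ) + 1)) δ₁ lam ε hη0
    (by positivity) hδ₁ hlam hε
  have hCq := Cq_pos k
  set C₁ : ℝ := (Cq k * 3) ^ ((1 : ℝ) / 2 ^ k) with hC₁
  have hC₁0 : 0 < C₁ := by positivity
  set CT : ℝ := (b : ℝ) ^ (k + 1) * (k + 1).factorial with hCT
  have hCT0 : 0 < CT := by positivity
  obtain ⟨t₁, ht₁⟩ := eventually_atTop.mp ((poly_grow f hlc hd).and
    ((poly_up f).and (poly_inc f hlc hd2)))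
  refine ⟨c, hc, K₀, fun K hKK => ?_⟩
  have hcrit := hcritK K hKK
  filter_upwards [hcrit, eventually_ge_atTop (4 : ℝ), eventually_ge_atTop t₁,
    ev_pow (τ / 2) τ (2 * CT) (by linarith), ev_pow σ (1 - η) (2 * b) (by linarith),
    ev_pow (σ * k + η - 1 / 2) (-σ) (8 * b) (by linarith),
    (tendsto_rpow_atTop hσ0).eventually_ge_atTop 2,
    ev_pow η 1 (2 * b) (by linarith), ev_pow (-δ') (-(δ' / 3)) (2 * C₁) (by linarith)]
    with Z hcr hZ4 hZt hp1 hp2 hp3 hp4 hp5 hp6
  rintro ⟨a, D, hcop, hD1, hD2, hap⟩ M hM hMA l hl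
  have hZ0 : 0 < Z := by linarith
  have hZ1 : 1 ≤ Z := by linarith
  have hM0 : 0 < M := by linarith
  rw [Real.rpow_one] at hp5
  have hDpos : (0 : ℝ) < D := lt_of_lt_of_le (by positivity) hD1
  set L : ℕ := ⌊Z⌋₊ with hL
  have hLZ : (L : ℝ) ≤ Z := Nat.floor_le hZ0.le
  have hZL : Z / 2 ≤ L := by
    have := Nat.lt_floor_add_one Z
    linarith
  have hLpos : 0 < L := by
    have : (0 : ℝ) < L := by linarith
    exact_mod_cast this
  set u₀ : ℕ := ⌊M⌋₊ + 1 with hu₀
  have hu1 : M < u₀ := by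
    rw [hu₀]
    push_cast
    exact Nat.lt_floor_add_one M
  have hu2 : (u₀ : ℝ) ≤ M + 1 := by
    rw [hu₀]
    push_cast
    have := Nat.floor_le hM0.le
    linarith
  set H : ℕ := ⌊Z ^ σ⌋₊ with hH
  have hHZ : (H : ℝ) ≤ Z ^ σ := Nat.floor_le (by positivity)
  have hZH : Z ^ σ / 2 ≤ H := by
    have := Nat.lt_floor_add_one (Z ^ σ)
    linarith
  have hH1 : 1 ≤ H := by
    have : (0 : ℝ) < H := by linarith
    exact_mod_cast this
  have hHk : (H : ℝ) ^ k ≤ Z ^ (σ * k) := by
    calc (H : ℝ) ^ k ≤ (Z ^ σ) ^ k := pow_le_pow_left₀ (Nat.cast_nonneg _) hHZ k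
      _ = Z ^ (σ * k) := by rw [← Real.rpow_natCast, ← Real.rpow_mul hZ0.le]
  have hu₀t : t₁ ≤ u₀ := by linarith
  have hfinal := hcr (range L) (fun n => f.eval ((u₀ : ℝ) + n)) (by
      intro n hn
      have hn0 : (0 : ℝ) ≤ n := Nat.cast_nonneg n
      have h1 := ht₁ ((u₀ : ℝ) + n) (by linarith)
      have e3 : (n : ℝ) + 1 ≤ L := by exact_mod_cast mem_range.1 hn
      refine ⟨le_trans (by positivity) h1.1, h1.2.1.trans ?_⟩
      have e4 : (u₀ : ℝ) + n ≤ Z ^ (A + 1) := by
        rw [Real.rpow_add hZ0, Real.rpow_one]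
        have e5 : (u₀ : ℝ) + n ≤ M + M := by linarith
        have e6 : M + M ≤ Z ^ A * Z := by
          have e7 : 0 ≤ Z ^ A := by positivity
          nlinarith
        exact e5.trans e6
      calc ((u₀ : ℝ) + n) ^ ((f.natDegree : ℝ) + 1) ≤ (Z ^ (A + 1)) ^ ((f.natDegree : ℝ) + 1) :=
            Real.rpow_le_rpow (by positivity) e4 (by positivity)
        _ = _ := by rw [← Real.rpow_mul hZ0.le]) (by
      apply Function.Injective.injOn
      apply floor_inj
      · intro n
        have hn0 : (0 : ℝ) ≤ n := Nat.cast_nonneg n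
        exact le_trans (by positivity) (ht₁ ((u₀ : ℝ) + n) (by linarith)).1
      · intro n
        have hn0 : (0 : ℝ) ≤ n := Nat.cast_nonneg n
        have e1 := (ht₁ ((u₀ : ℝ) + n) (by linarith)).2.2
        push_cast
        rw [show (u₀ : ℝ) + (n + 1) = (u₀ : ℝ) + n + 1 by ring]
        exact e1) (by
      intro q h hq hqX hh hhX
      have hq0 : (0 : ℝ) < q := by exact_mod_cast hq
      have hh1 : (1 : ℝ) ≤ h := by exact_mod_cast hh
      have hq1 : (1 : ℝ) ≤ q := by exact_mod_cast hq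
      set B : ℕ := b * q with hB
      have hBpos : 0 < B := Nat.mul_pos hb (by omega)
      have hBr : (B : ℝ) = b * q := by rw [hB]; push_cast; rfl
      have hB0 : (0 : ℝ) < B := by exact_mod_cast hBpos
      have hBZ : (B : ℝ) ≤ b * Z ^ η := by rw [hBr]; gcongr
      have hBL : (B : ℝ) ≤ L := by linarith
      set N : ℕ := L / B + 1 with hN
      have hN1 : 1 ≤ N := Nat.le_add_left 1 _
      have hNr : (L : ℝ) / B ≤ N := by
        have h1 : L < B * N := by
          rw [hN]
          exact Nat.lt_mul_div_succ L hBpos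
        rw [div_le_iff₀ hB0, mul_comm]
        exact_mod_cast h1.le
      have hN0 : (0 : ℝ) < N := by exact_mod_cast hN1
      have hNlow : Z ^ (1 - η) / (2 * b) ≤ N := by
        refine le_trans ?_ hNr
        rw [div_le_div_iff₀ (by positivity) hB0]
        have h1 : Z ^ (1 - η) * Z ^ η = Z := by
          rw [← Real.rpow_add hZ0]
          simp
        calc Z ^ (1 - η) * B ≤ Z ^ (1 - η) * (b * Z ^ η) := by gcongr
          _ = b * (Z ^ (1 - η) * Z ^ η) := by ring
          _ = b * Z := by rw [h1]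
          _ ≤ L * (2 * b) := by nlinarith
      have hHN : H ≤ N := by
        have h1 : (H : ℝ) ≤ N := by
          refine hHZ.trans (le_trans ?_ hNlow)
          rw [le_div_iff₀ (by positivity)]
          linarith
        exact_mod_cast h1
      have hBN : (B : ℝ) * N ≤ 2 * L := by
        have h1 : B * N ≤ L + B := by
          rw [hN, mul_add, mul_one]
          have := Nat.mul_div_le L B
          omega
        have h2 : (B : ℝ) * N ≤ L + B := by exact_mod_cast h1
        linarith
      -- the sum over a residue class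
      have hres : ∀ r < B, ‖∑ m ∈ range ((L + (B - 1 - r)) / B),
          e ((h : ℝ) / q * f.eval ((u₀ : ℝ) + ((r + B * m : ℕ) : ℝ)))‖ ≤ N * (C₁ * Z ^ (-δ')) := by
        intro r hr
        set Lr : ℕ := (L + (B - 1 - r)) / B with hLr
        have hLrN : Lr ≤ N := by
          rw [hLr, hN, ← Nat.add_div_right _ hBpos]
          apply Nat.div_le_div_right
          omega
        set w : ℤ := (u₀ : ℤ) + r with hw
        have hterm : ∀ m ∈ range Lr, e ((h : ℝ) / q * f.eval ((u₀ : ℝ) + ((r + B * m : ℕ) : ℝ))) =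
            e ((h : ℝ) / q * g.eval ((w : ℝ) + B * (m : ℝ))) * e ((h : ℝ) / (q * b) * (F.eval w : ℤ)) := by
          intro m _
          have h1 := hfg (w + B * m)
          have h2 : (((w + B * m : ℤ)) : ℝ) = (u₀ : ℝ) + ((r + B * m : ℕ) : ℝ) := by
            rw [hw]; push_cast; ring
          rw [h2] at h1
          rw [h1]
          have h3 : (u₀ : ℝ) + ((r + B * m : ℕ) : ℝ) = (w : ℝ) + B * (m : ℝ) := by
            rw [hw]; push_cast; ring
          obtain ⟨K, hK⟩ := Polynomial.sub_dvd_eval_sub (w + B * m) w F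
          have h4 : (F.eval (w + (B : ℤ) * m) : ℤ) = F.eval w + (B : ℤ) * m * K := by
            have : w + (B : ℤ) * m - w = (B : ℤ) * m := by ring
            rw [this] at hK
            linarith
          rw [h3, h4]
          have h5 : (h : ℝ) / q * (g.eval ((w : ℝ) + B * (m : ℝ)) +
              (((F.eval w + (B : ℤ) * m * K : ℤ)) : ℝ) / b) =
              (h : ℝ) / q * g.eval ((w : ℝ) + B * (m : ℝ)) + (h : ℝ) / (q * b) * (F.eval w : ℤ) +
                ((h * m * K : ℤ) : ℝ) := by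
            push_cast
            rw [hBr]
            field_simp
            ring
          rw [h5, e_add, e_add, e_int, mul_one]
        rw [sum_congr rfl hterm, ← sum_mul, norm_mul, norm_e, mul_one]
        -- the phase
        set φ : ℕ → ℝ → ℝ := fun i t => (h : ℝ) / q * (B : ℝ) ^ i *
          (Polynomial.derivative^[i] g).eval ((w : ℝ) + B * t) with hφ
        have hHy := poly_phase g k hgd ((h : ℝ) / q) (w : ℝ) (B : ℝ) 0 Lr
        rw [← hφ] at hHy
        set c : ℝ := (h : ℝ) / q * (B : ℝ) ^ (k + 1) * ((k + 1).factorial * g.coeff (k + 1)) with hc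
        have hcT : c = ((h * b ^ (k + 1) * q ^ k * (k + 1).factorial : ℕ) : ℝ) * f.coeff (k + 1) := by
          rw [hc, hgj, hBr]
          push_cast
          rw [mul_pow, pow_succ (q : ℝ) k]
          field_simp
        have hexp := exp_boundC hHy 0 N Lr H hN1 hLrN le_rfl (by simp) hH1 hHN (1 / (2 * (D : ℝ)))
          (by positivity) (by
            intro P hP1 hP2
            rw [hcT, ← mul_assoc, ← Nat.cast_mul]
            apply fract_of_approx hcop hap
            · have h1 : 0 < h := by omega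
              have h2 : 0 < q := by omega
              have h3 : 0 < P := by omega
              exact Nat.one_le_iff_ne_zero.mpr (by positivity)
            · have h1 : ((2 * (P * (h * b ^ (k + 1) * q ^ k * (k + 1).factorial)) : ℕ) : ℝ) ≤ D := by
                push_cast
                have h2 : (P : ℝ) ≤ Z ^ (σ * k) := by
                  have : (P : ℝ) ≤ (H : ℝ) ^ k := by exact_mod_cast hP2
                  exact this.trans hHk
                have h3 : (q : ℝ) ^ k ≤ Z ^ (η * k) := by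
                  calc (q : ℝ) ^ k ≤ (Z ^ η) ^ k := pow_le_pow_left₀ hq0.le hqX k
                    _ = Z ^ (η * k) := by rw [← Real.rpow_natCast, ← Real.rpow_mul hZ0.le]
                calc 2 * ((P : ℝ) * (h * (b : ℝ) ^ (k + 1) * (q : ℝ) ^ k * (k + 1).factorial)) =
                    2 * CT * (P * h * (q : ℝ) ^ k) := by rw [hCT]; ring
                  _ ≤ 2 * CT * (Z ^ (σ * k) * Z ^ (4 * η) * Z ^ (η * k)) := by gcongr
                  _ = 2 * CT * Z ^ (σ * k + 4 * η + η * k) := by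
                      rw [Real.rpow_add hZ0, Real.rpow_add hZ0]
                  _ ≤ 2 * CT * Z ^ (τ / 2) := by
                      apply mul_le_mul_of_nonneg_left _ (by positivity)
                      apply Real.rpow_le_rpow_of_exponent_le hZ1
                      linarith
                  _ ≤ Z ^ τ := hp1
                  _ ≤ D := hD1
              exact_mod_cast h1)
        have hb2 : Cq k * (1 / H + 2 * (H : ℝ) ^ k / (1 / (2 * (D : ℝ)) * N)) ≤
            (Cq k * 3) * Z ^ (-σ) := by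
          have e1 : 1 / (H : ℝ) ≤ 2 * Z ^ (-σ) := by
            rw [Real.rpow_neg hZ0.le, div_le_iff₀ (by linarith : (0 : ℝ) < H)]
            have h5 : (0 : ℝ) < Z ^ σ := by positivity
            calc (1 : ℝ) = 2 * (Z ^ σ)⁻¹ * (Z ^ σ / 2) := by field_simp
              _ ≤ _ := by gcongr
          have e2 : 2 * (H : ℝ) ^ k / (1 / (2 * (D : ℝ)) * N) ≤ Z ^ (-σ) := by
            have e3 : 2 * (H : ℝ) ^ k / (1 / (2 * (D : ℝ)) * N) = 4 * (D * (H : ℝ) ^ k) * (1 / N) := by
              field_simp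
              norm_num
            rw [e3]
            have e4 : 1 / (N : ℝ) ≤ 2 * b * Z ^ (η - 1) := by
              have h1 : 1 / (N : ℝ) ≤ 1 / (Z ^ (1 - η) / (2 * b)) :=
                one_div_le_one_div_of_le (by positivity) hNlow
              refine h1.trans (le_of_eq ?_)
              rw [one_div_div, show η - 1 = -(1 - η) by ring, Real.rpow_neg hZ0.le, div_eq_mul_inv]
            calc 4 * (D * (H : ℝ) ^ k) * (1 / N) ≤
                4 * (Z ^ (1 / 2 : ℝ) * Z ^ (σ * k)) * (2 * b * Z ^ (η - 1)) := by gcongr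
              _ = 8 * b * (Z ^ (σ * k) * Z ^ (η - 1) * Z ^ (1 / 2 : ℝ)) := by ring
              _ = 8 * b * Z ^ (σ * k + η - 1 / 2) := by
                  rw [← Real.rpow_add hZ0, ← Real.rpow_add hZ0]
                  congr 2
                  ring
              _ ≤ _ := hp3
          calc _ ≤ Cq k * (2 * Z ^ (-σ) + Z ^ (-σ)) := by gcongr
            _ = _ := by ring
        have hroot := root_le _ _ k (by positivity) (hexp.trans hb2)
        have hr2 : ((Cq k * 3) * Z ^ (-σ)) ^ ((1 : ℝ) / 2 ^ k) = C₁ * Z ^ (-δ') := by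
          rw [Real.mul_rpow (by positivity) (by positivity), ← Real.rpow_mul hZ0.le, hC₁, hδ']
          congr 2
          ring
        rw [hr2, div_le_iff₀ hN0] at hroot
        have hsum : ∑ m ∈ range Lr, e (φ 0 (0 + (m : ℝ))) =
            ∑ m ∈ range Lr, e ((h : ℝ) / q * g.eval ((w : ℝ) + B * (m : ℝ))) := by
          refine sum_congr rfl fun m _ => ?_
          rw [hφ]
          simp
        rw [hsum] at hroot
        linarith
      have hall := norm_split (fun n => e ((h : ℝ) / q * f.eval ((u₀ : ℝ) + (n : ℝ)))) L B hBpos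
        (N * (C₁ * Z ^ (-δ'))) hres
      have hcard : ((range L).card : ℝ) = L := by rw [card_range]
      rw [hcard]
      refine hall.trans ?_
      calc (B : ℝ) * (N * (C₁ * Z ^ (-δ'))) = (B * N) * (C₁ * Z ^ (-δ')) := by ring
        _ ≤ (2 * L) * (C₁ * Z ^ (-δ')) := by gcongr
        _ = L * (2 * C₁ * Z ^ (-δ')) := by ring
        _ ≤ L * Z ^ (-(4 * η)) := by rw [hη4]; gcongr) l hl
  rw [card_range] at hfinal
  refine le_trans (Nat.cast_le.2 (excF_le _ _ _ _ _ _ _)) (le_trans (le_of_eq ?_) hfinal)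
  have e8 : ∀ n : ℕ, (((⌊M⌋₊ + 1 + n : ℕ)) : ℝ) = (u₀ : ℝ) + n := by
    intro n
    rw [hu₀]
    push_cast
    ring
  simp only [e8]
  congr 2

end Pool.Agent.R502.LG
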