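import Pool.Agent.R502.LG.PrimeLong
import Pool.Agent.R502.LG.Final

set_option autoImplicit false

/-! Blocks free of rough numbers near `α p + β` for almost all primes: all residue classes. -/

namespace Pool.Agent.R502.LG

open Finset Filter
open Pool.Agent.TH915.PW

/-- the primes in `(Z, 2 Z]` -/
noncomputable def PrI (Z : ℝ) : Finset ℕ := (Ioc ⌊Z⌋₊ ⌊2 * Z⌋₊).filter Nat.Prime

theorem primes_all (α : ℝ) (hα : 0 < α) (β₀ : ℝ) (τ : ℝ) (hτ0 : 0 < τ) (hτ1 : τ ≤ 1 / 2)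
    (δ₁ lam ε : ℝ) (hδ₁ : 0 < δ₁) (hlam : 0 < lam) (hε : 0 < ε) :
    ∃ c : ℝ, 0 < c ∧ ∃ K₀ : ℕ, ∀ K : ℕ, K₀ ≤ K → ∀ᶠ Z : ℝ in atTop, GS α τ Z →
      (((PrI Z).filter (fun p : ℕ => (cntF (Z ^ δ₁) ⌈lam * Real.log Z⌉₊ K ⌊α * p + β₀⌋₊ : ℝ) <
        c * K)).card : ℝ) ≤ ε * (PrI Z).card := by
  classical
  obtain ⟨d, hd⟩ : ∃ d : ℕ, d = ⌈1 / α⌉₊ := ⟨_, rfl⟩
  have hdpos : 0 < d := by rw [hd]; exact Nat.ceil_pos.2 (by positivity)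
  have hαd : 1 ≤ α * d := by
    have h1 : 1 / α ≤ d := by rw [hd]; exact Nat.le_ceil _
    calc (1 : ℝ) = α * (1 / α) := by field_simp
      _ ≤ _ := mul_le_mul_of_nonneg_left h1 hα.le
  obtain ⟨R, hR⟩ : ∃ R : Finset ℕ, R = (range d).filter (fun r => r.Coprime d) := ⟨_, rfl⟩
  have hex : ∀ r : ℕ, ∃ c : ℝ, 0 < c ∧ ∃ K₀ : ℕ, r ∈ R → ∀ K : ℕ, K₀ ≤ K →
      ∀ᶠ Z : ℝ in atTop, GS α τ Z →
      ∀ l : ℕ, (l : ℝ) ≤ (2 * lam) * Real.log Z →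
      ((((Ioc ⌊Z⌋₊ ⌊2 * Z⌋₊).filter (fun p => p.Prime ∧ p ≡ r [MOD d])).filter
        (fun p : ℕ => (cntF (Z ^ δ₁) l K ⌊α * p + β₀⌋₊ : ℝ) < c * K)).card : ℝ) ≤
      ε * ((Ioc ⌊Z⌋₊ ⌊2 * Z⌋₊).filter (fun p => p.Prime ∧ p ≡ r [MOD d])).card := by
    intro r
    by_cases hr : r ∈ R
    · have hr' := hr
      rw [hR, mem_filter] at hr'
      obtain ⟨c, hc, K₀, h⟩ := primes_long α hα β₀ d hdpos hαd r hr'.2 τ hτ0 hτ1 δ₁ (2 * lam) ε hδ₁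
        (by linarith) hε
      exact ⟨c, hc, K₀, fun _ => h⟩
    · exact ⟨1, one_pos, 0, fun h => absurd h hr⟩
  choose cc hcc KK hKK using hex
  obtain ⟨c, hc⟩ : ∃ c : ℝ, c = 1 / (∑ r ∈ R, 1 / cc r + 1) := ⟨_, rfl⟩
  have hsum0 : 0 ≤ ∑ r ∈ R, 1 / cc r := sum_nonneg fun r _ => by have := hcc r; positivity
  have hc0 : 0 < c := by rw [hc]; positivity
  have hcr : ∀ r ∈ R, c ≤ cc r := by
    intro r hr
    have h1 : 1 / cc r ≤ ∑ r ∈ R, 1 / cc r :=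
      single_le_sum (f := fun r => 1 / cc r) (fun r _ => by have := hcc r; positivity) hr
    have h2 := hcc r
    rw [hc, div_le_iff₀ (by positivity)]
    calc (1 : ℝ) = cc r * (1 / cc r) := by field_simp
      _ ≤ cc r * (∑ r ∈ R, 1 / cc r + 1) := mul_le_mul_of_nonneg_left (by linarith) h2.le
  refine ⟨c, hc0, ∑ r ∈ R, KK r, fun K hK => ?_⟩
  have hKr : ∀ r ∈ R, KK r ≤ K := fun r hr =>
    (single_le_sum (f := KK) (fun _ _ => Nat.zero_le _) hr).trans hK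
  have hall : ∀ᶠ Z : ℝ in atTop, ∀ r ∈ R, GS α τ Z →
      ∀ l : ℕ, (l : ℝ) ≤ (2 * lam) * Real.log Z →
      ((((Ioc ⌊Z⌋₊ ⌊2 * Z⌋₊).filter (fun p => p.Prime ∧ p ≡ r [MOD d])).filter
        (fun p : ℕ => (cntF (Z ^ δ₁) l K ⌊α * p + β₀⌋₊ : ℝ) < cc r * K)).card : ℝ) ≤
      ε * ((Ioc ⌊Z⌋₊ ⌊2 * Z⌋₊).filter (fun p => p.Prime ∧ p ≡ r [MOD d])).card := by
    rw [Filter.eventually_all_finset]
    intro r hr
    exact hKK r hr K (hKr r hr)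
  filter_upwards [hall, Real.tendsto_log_atTop.eventually_ge_atTop (1 / lam),
    eventually_ge_atTop ((d : ℝ) + 1)] with Z hZ hlog hZd hGS
  have hZ0 : 0 ≤ Z := by
    have : (0 : ℝ) ≤ d := Nat.cast_nonneg _
    linarith
  have hl : ((⌈lam * Real.log Z⌉₊ : ℕ) : ℝ) ≤ (2 * lam) * Real.log Z := by
    have h4 : 1 ≤ lam * Real.log Z := by
      rw [div_le_iff₀ hlam] at hlog
      linarith
    have := Nat.ceil_lt_add_one (show 0 ≤ lam * Real.log Z by linarith)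
    linarith
  set l := ⌈lam * Real.log Z⌉₊ with hld
  -- the classes
  have hcls : ∀ p ∈ PrI Z, p % d ∈ R := by
    intro p hp
    unfold PrI at hp
    rw [mem_filter, mem_Ioc] at hp
    rw [hR, mem_filter, mem_range]
    refine ⟨Nat.mod_lt _ hdpos, ?_⟩
    have h1 : d < p := by
      have h2 : d ≤ ⌊Z⌋₊ := Nat.le_floor (by linarith)
      omega
    have h3 : p.Coprime d := by
      rw [Nat.Prime.coprime_iff_not_dvd hp.2]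
      intro h4
      have := Nat.le_of_dvd hdpos h4
      omega
    unfold Nat.Coprime at h3 ⊢
    rw [← h3, Nat.gcd_comm (p % d), Nat.gcd_comm p, Nat.gcd_rec d p, Nat.gcd_comm]
  have hsub : (PrI Z).filter (fun p : ℕ => (cntF (Z ^ δ₁) l K ⌊α * p + β₀⌋₊ : ℝ) < c * K) ⊆
      R.biUnion (fun r => ((Ioc ⌊Z⌋₊ ⌊2 * Z⌋₊).filter (fun p => p.Prime ∧ p ≡ r [MOD d])).filter
        (fun p : ℕ => (cntF (Z ^ δ₁) l K ⌊α * p + β₀⌋₊ : ℝ) < cc r * K)) := by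
    intro p hp
    rw [mem_filter] at hp
    have h1 := hcls p hp.1
    have h2 := hp.1
    unfold PrI at h2
    rw [mem_filter] at h2
    rw [mem_biUnion]
    refine ⟨p % d, h1, ?_⟩
    rw [mem_filter, mem_filter]
    refine ⟨⟨h2.1, h2.2, (Nat.mod_modEq p d).symm⟩, lt_of_lt_of_le hp.2 ?_⟩
    exact mul_le_mul_of_nonneg_right (hcr _ h1) (Nat.cast_nonneg _)
  have hdis : ∑ r ∈ R, ((Ioc ⌊Z⌋₊ ⌊2 * Z⌋₊).filter (fun p => p.Prime ∧ p ≡ r [MOD d])).card ≤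
      (PrI Z).card := by
    rw [← card_biUnion]
    · apply card_le_card
      intro p hp
      rw [mem_biUnion] at hp
      obtain ⟨r, -, hp⟩ := hp
      rw [mem_filter] at hp
      unfold PrI
      rw [mem_filter]
      exact ⟨hp.1, hp.2.1⟩
    · intro r hr r' hr' hrr
      rw [Function.onFun, Finset.disjoint_left]
      intro p hp hp'
      rw [mem_filter] at hp hp'
      rw [mem_coe, hR, mem_filter, mem_range] at hr hr'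
      apply hrr
      have h1 : r ≡ r' [MOD d] := hp.2.2.symm.trans hp'.2.2
      unfold Nat.ModEq at h1
      rwa [Nat.mod_eq_of_lt hr.1, Nat.mod_eq_of_lt hr'.1] at h1
  calc (((PrI Z).filter (fun p : ℕ => (cntF (Z ^ δ₁) l K ⌊α * p + β₀⌋₊ : ℝ) < c * K)).card : ℝ) ≤
      ((R.biUnion (fun r => ((Ioc ⌊Z⌋₊ ⌊2 * Z⌋₊).filter
        (fun p => p.Prime ∧ p ≡ r [MOD d])).filter
        (fun p : ℕ => (cntF (Z ^ δ₁) l K ⌊α * p + β₀⌋₊ : ℝ) < cc r * K))).card : ℝ) := by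
        exact_mod_cast card_le_card hsub
    _ ≤ ∑ r ∈ R, ((((Ioc ⌊Z⌋₊ ⌊2 * Z⌋₊).filter
        (fun p => p.Prime ∧ p ≡ r [MOD d])).filter
        (fun p : ℕ => (cntF (Z ^ δ₁) l K ⌊α * p + β₀⌋₊ : ℝ) < cc r * K)).card : ℝ) := by
        exact_mod_cast card_biUnion_le
    _ ≤ ∑ r ∈ R, ε * (((Ioc ⌊Z⌋₊ ⌊2 * Z⌋₊).filter
        (fun p => p.Prime ∧ p ≡ r [MOD d])).card : ℝ) := sum_le_sum fun r hr => hZ r hr hGS l hl
    _ = ε * ((∑ r ∈ R, ((Ioc ⌊Z⌋₊ ⌊2 * Z⌋₊).filter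
        (fun p => p.Prime ∧ p ≡ r [MOD d])).card : ℕ) : ℝ) := by
        rw [← mul_sum]
        push_cast
        rfl
    _ ≤ ε * (PrI Z).card := by
        apply mul_le_mul_of_nonneg_left _ hε.le
        exact_mod_cast hdis

theorem final_primes (α : ℝ) (hα : 0 < α) (hirr : Irrational α) (β₀ : ℝ) (δ lam ε : ℝ)
    (hδ : 0 < δ) (hlam : 0 < lam) (hε : 0 < ε) :
    ∃ c : ℝ, 0 < c ∧ ∃ K₀ : ℕ, ∀ K : ℕ, K₀ ≤ K →
      (∀ Z₁ : ℝ, ∃ Z : ℝ, Z₁ ≤ Z ∧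
        (((PrI Z).filter (fun p : ℕ => (cntF (Z ^ δ) ⌈lam * Real.log Z⌉₊ K ⌊α * p + β₀⌋₊ : ℝ) <
          c * K)).card : ℝ) ≤ ε * (PrI Z).card) ∧
      (¬ Liouville α → ∃ Z₀ : ℝ, ∀ Z : ℝ, Z₀ ≤ Z →
        (((PrI Z).filter (fun p : ℕ => (cntF (Z ^ δ) ⌈lam * Real.log Z⌉₊ K ⌊α * p + β₀⌋₊ : ℝ) <
          c * K)).card : ℝ) ≤ ε * (PrI Z).card) := by
  by_cases hL : Liouville α
  · obtain ⟨c, hc, K₀, h⟩ := primes_all α hα β₀ (1 / 2) (by norm_num) le_rfl δ lam ε hδ hlam hε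
    refine ⟨c, hc, K₀, fun K hK => ⟨fun Z₁ => ?_, fun h' => absurd hL h'⟩⟩
    obtain ⟨Z₀, hZ₀⟩ := eventually_atTop.1 (h K hK)
    obtain ⟨Z, hZ, hGS⟩ := GS_frequent hirr (1 / 2) le_rfl (max Z₀ Z₁)
    exact ⟨Z, (le_max_right _ _).trans hZ, hZ₀ Z ((le_max_left _ _).trans hZ) hGS⟩
  · obtain ⟨τ, hτ0, hτ1, hGS⟩ := GS_eventually hirr hL
    obtain ⟨c, hc, K₀, h⟩ := primes_all α hα β₀ τ hτ0 hτ1 δ lam ε hδ hlam hε
    refine ⟨c, hc, K₀, fun K hK => ?_⟩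
    obtain ⟨Z₀, hZ₀⟩ := eventually_atTop.1 ((h K hK).and hGS)
    exact ⟨fun Z₁ => ⟨max Z₀ Z₁, le_max_right _ _,
      (hZ₀ _ (le_max_left _ _)).1 (hZ₀ _ (le_max_left _ _)).2⟩,
      fun _ => ⟨Z₀, fun Z hZ => (hZ₀ Z hZ).1 (hZ₀ Z hZ).2⟩⟩

end Pool.Agent.R502.LG
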