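import Pool.Agent.TH915.PW.PrimeFin
import Pool.Agent.R502.LG.Smooth

set_option autoImplicit false

/-! Blocks free of rough numbers near `α p + β` for almost all primes `p` (the exponential sums are
those of `Pool/Agent/TH915/PW/PrimeMain.lean`). -/

namespace Pool.Agent.R502.LG

open Finset Filter
open Pool.Agent.TH915.PW
open Pool.Agent.H469R2.NK (e norm_e e_add)
open Pool.Agent.W147.PS (ff ff_compare ev_pow)

set_option maxHeartbeats 4000000 in
/-- the theorem at a good scale -/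
theorem primes_long (α : ℝ) (hα : 0 < α) (β₀ : ℝ) (d : ℕ) (hd : 0 < d) (hαd : 1 ≤ α * d) (r : ℕ)
    (hr : r.Coprime d) (τ : ℝ) (hτ0 : 0 < τ) (hτ1 : τ ≤ 1 / 2) (δ₁ lam ε₁ : ℝ) (hδ₁ : 0 < δ₁)
    (hlam : 0 < lam) (hε₁ : 0 < ε₁) :
    ∃ c : ℝ, 0 < c ∧ ∃ K₀ : ℕ, ∀ K : ℕ, K₀ ≤ K → ∀ᶠ Z : ℝ in atTop, GS α τ Z →
      ∀ l : ℕ, (l : ℝ) ≤ lam * Real.log Z →
      ((((Ioc ⌊Z⌋₊ ⌊2 * Z⌋₊).filter (fun p => p.Prime ∧ p ≡ r [MOD d])).filter
        (fun p : ℕ => (cntF (Z ^ δ₁) l K ⌊α * p + β₀⌋₊ : ℝ) < c * K)).card : ℝ) ≤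
      ε₁ * ((Ioc ⌊Z⌋₊ ⌊2 * Z⌋₊).filter (fun p => p.Prime ∧ p ≡ r [MOD d])).card := by
  classical
  obtain ⟨ε, hε2⟩ : ∃ ε : ℝ, ε = 1 := ⟨_, rfl⟩
  have hε : 0 < ε := by rw [hε2]; norm_num
  have hε1 : ε ≤ 1 := hε2.le
  obtain ⟨c, hc, K₀, hcritK⟩ := critE (τ / 100) 2 δ₁ lam ε₁ (by positivity) (by norm_num) hδ₁ hlam hε₁
  have hlogev : ∀ᶠ Z : ℝ in atTop, Real.log (2 * Z) ≤ Z ^ (1 / 4 : ℝ) := by
    have e1 := (isLittleO_log_rpow_atTop (show (0 : ℝ) < 1 / 8 by norm_num)).def
      (show (0 : ℝ) < 1 by norm_num)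
    have e2 : Tendsto (fun Z : ℝ => 2 * Z) atTop atTop := tendsto_id.const_mul_atTop (by norm_num)
    filter_upwards [e2.eventually e1, eventually_ge_atTop (1 : ℝ),
      ev_pow (1 / 8) (1 / 4) (2 ^ (1 / 8 : ℝ)) (by norm_num)] with Z e3 e4 e5
    rw [Real.norm_eq_abs, Real.norm_eq_abs, abs_of_nonneg (Real.log_nonneg (by linarith)),
      abs_of_nonneg (by positivity), one_mul, Real.mul_rpow (by norm_num) (by linarith)] at e3
    linarith
  refine ⟨c, hc, K₀, fun K hKK => ?_⟩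
  have hcrit := hcritK K hKK
  filter_upwards [eventually_ge_atTop (2 * α + |β₀| + 1), hcrit, mangoldt_sum τ hτ0 hτ1 d hd,
    card_primes d hd r hr ε (τ / 1000) hε hε1 (by positivity), hlogev,
    eventually_ge_atTop (4 : ℝ), ev_pow (3 / 4) (1 - 9 / 20 * (τ / 8)) 4 (by linarith),
    ev_pow (1 - 9 / 20 * (τ / 8)) (1 - τ / 1000 - 4 * (τ / 100)) 5 (by linarith),
    ev_pow (τ / 100) 1 (2 / α) (by linarith), eventually_ge_atTop (|β₀| * (2 / α))]
    with Z hZα hcr hvm hcard hlog hZ4 hp1 hp2 hp3 hp4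
  intro hGS l hl
  rw [show (2 : ℝ) * Z = (1 + ε) * Z by rw [hε2]; ring]
  rw [Real.rpow_one] at hp3
  have hZ0 : 0 < Z := by linarith
  have hZ1 : 1 ≤ Z := by linarith
  set m₀ : ℕ := ⌊Z⌋₊ with hm₀
  set m₁ : ℕ := ⌊(1 + ε) * Z⌋₊ with hm₁
  have hm04 : 4 ≤ m₀ := Nat.le_floor (by exact_mod_cast hZ4)
  have hm1' : (m₁ : ℝ) ≤ (1 + ε) * Z := Nat.floor_le (by positivity)
  have hm1 : (m₁ : ℝ) ≤ 2 * Z := by nlinarith
  set Q : Finset ℕ := (Ioc m₀ m₁).filter (fun p => p.Prime ∧ p ≡ r [MOD d]) with hQ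
  have hQpos : (0 : ℝ) < Q.card := lt_of_lt_of_le (by positivity) hcard
  have hQne : Q.Nonempty := by
    rw [← Finset.card_pos]
    exact_mod_cast hQpos
  have hQmem : ∀ p ∈ Q, p.Prime ∧ p ≡ r [MOD d] ∧ Z < p ∧ (p : ℝ) ≤ (1 + ε) * Z := by
    intro p hp
    rw [hQ, Finset.mem_filter, Finset.mem_Ioc] at hp
    refine ⟨hp.2.1, hp.2.2, ?_, ?_⟩
    · exact (Nat.floor_lt hZ0.le).mp hp.1.1
    · have : (p : ℝ) ≤ m₁ := by exact_mod_cast hp.1.2
      linarith
  have hm01 : m₀ < m₁ := by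
    obtain ⟨p, hp⟩ := hQne
    rw [hQ, Finset.mem_filter, Finset.mem_Ioc] at hp
    omega
  have hfinal := hcr Q (fun p => α * p + β₀) (by
      intro p hp
      obtain ⟨-, -, h1, h1'⟩ := hQmem p hp
      have h2 : -|β₀| ≤ β₀ := neg_abs_le _
      have h2' : β₀ ≤ |β₀| := le_abs_self _
      have h4 : |β₀| ≤ α / 2 * Z := by
        calc |β₀| = α / 2 * (|β₀| * (2 / α)) := by field_simp
          _ ≤ _ := by gcongr
      have h5 : (p : ℝ) ≤ 2 * Z := by rw [hε2] at h1'; linarith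
      refine ⟨by nlinarith, ?_⟩
      rw [Real.rpow_two]
      have h6 : α * (p : ℝ) ≤ α * (2 * Z) := mul_le_mul_of_nonneg_left h5 hα.le
      have h7 : 0 ≤ |β₀| := abs_nonneg _
      nlinarith) (by
      intro p hp p' hp' hpp
      simp only at hpp
      by_contra hne
      have key : ∀ a b : ℕ, a ∈ Q → b ∈ Q → a < b → ⌊α * (a : ℝ) + β₀⌋₊ < ⌊α * (b : ℝ) + β₀⌋₊ := by
        intro a b ha hb hab
        obtain ⟨-, ha2, ha3, -⟩ := hQmem a ha
        obtain ⟨-, hb2, -, -⟩ := hQmem b hb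
        have h1 : a ≡ b [MOD d] := ha2.trans hb2.symm
        have h2 : d ∣ b - a := (Nat.modEq_iff_dvd' hab.le).1 h1
        have h3 : d ≤ b - a := Nat.le_of_dvd (by omega) h2
        have h4 : (a : ℝ) + d ≤ b := by exact_mod_cast (by omega : a + d ≤ b)
        have h5 : 0 ≤ α * (a : ℝ) + β₀ := by
          have h6 : -|β₀| ≤ β₀ := neg_abs_le _
          have h7 : |β₀| ≤ α / 2 * Z := by
            calc |β₀| = α / 2 * (|β₀| * (2 / α)) := by field_simp
              _ ≤ _ := by gcongr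
          nlinarith
        have h6 : α * (a : ℝ) + β₀ + 1 ≤ α * (b : ℝ) + β₀ := by nlinarith
        have h7 := Nat.floor_le_floor h6
        rw [Nat.floor_add_one h5] at h7
        exact h7
      rcases lt_or_gt_of_ne hne with h | h
      · exact absurd hpp (key p p' hp hp' h).ne
      · exact absurd hpp (key p' p hp' hp h).ne') (by
      intro q h hq hqZ hh hhZ
      have e0 : ∀ p ∈ Q, e ((h : ℝ) / q * (α * p + β₀)) =
          e ((h : ℝ) / q * α * p) * e ((h : ℝ) / q * β₀) := by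
        intro p _
        rw [← e_add]
        congr 1
        ring
      rw [sum_congr rfl e0, ← sum_mul, norm_mul, norm_e, mul_one]
      set E : ℝ := 5 * Z ^ (1 - 9 / 20 * (τ / 8)) with hE
      have hE0 : 0 ≤ E := by positivity
      set G : ℕ → ℂ := fun n => (((if n.Prime then Real.log n else 0 : ℝ)) : ℂ) *
        e ((h : ℝ) / q * α * n) with hG
      have hcls : ∀ t : ℕ, m₀ ≤ t → t ≤ m₁ →
          ‖∑ n ∈ (Ioc m₀ t).filter (fun n => n ≡ r [MOD d]), G n‖ ≤ E := by
        intro t ht1 ht2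
        have htr : (t : ℝ) ≤ 2 * Z := by
          have : (t : ℝ) ≤ m₁ := by exact_mod_cast ht2
          linarith
        have ht0 : 1 ≤ t := by omega
        have htlog : 2 * √(t : ℝ) * Real.log t ≤ Z ^ (1 - 9 / 20 * (τ / 8)) := by
          have h7 : √(t : ℝ) ≤ 2 * Z ^ (1 / 2 : ℝ) := by
            rw [← Real.sqrt_eq_rpow]
            calc √(t : ℝ) ≤ √(2 ^ 2 * Z) := Real.sqrt_le_sqrt (by linarith)
              _ = 2 * √Z := by rw [Real.sqrt_mul (by norm_num), Real.sqrt_sq (by norm_num)]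
          have h8 : Real.log (t : ℝ) ≤ Z ^ (1 / 4 : ℝ) := by
            refine le_trans ?_ hlog
            apply Real.log_le_log _ htr
            exact_mod_cast ht0
          have h9 : 0 ≤ Real.log (t : ℝ) := Real.log_nonneg (by exact_mod_cast ht0)
          calc 2 * √(t : ℝ) * Real.log t ≤ 2 * (2 * Z ^ (1 / 2 : ℝ)) * Z ^ (1 / 4 : ℝ) := by gcongr
            _ = 4 * (Z ^ (1 / 2 : ℝ) * Z ^ (1 / 4 : ℝ)) := by ring
            _ = 4 * Z ^ (3 / 4 : ℝ) := by rw [← Real.rpow_add hZ0]; norm_num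
            _ ≤ _ := hp1
        apply class_bound (Ioc m₀ t) G d hd r E
        intro j _
        have h1 := hvm α hGS h q hh hhZ hq hqZ (j : ℤ) t ht1 htr
        have h2 := prime_bound m₀ t ht0 (fun n => e (((h : ℝ) / q * α + ((j : ℤ) : ℝ) / d) * n))
          (fun n => (norm_e _).le) _ h1
        have h3 : ∑ n ∈ Ioc m₀ t, G n * e ((j : ℝ) / d * n) =
            ∑ n ∈ Ioc m₀ t, (((if n.Prime then Real.log n else 0 : ℝ)) : ℂ) *
              e (((h : ℝ) / q * α + ((j : ℤ) : ℝ) / d) * n) := by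
          refine sum_congr rfl fun n _ => ?_
          rw [hG]
          simp only
          rw [mul_assoc, ← e_add]
          congr 2
          push_cast
          ring
        rw [h3]
        refine h2.trans ?_
        rw [hE]
        linarith
      set a : ℕ → ℂ := fun n => if n ≡ r [MOD d] then G n else 0 with ha
      set w : ℕ → ℝ := fun n => (Real.log n)⁻¹ with hw
      have hlogpos : ∀ n : ℕ, m₀ < n → 1 ≤ Real.log n := by
        intro n hn
        rw [Real.le_log_iff_exp_le (by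
          have : 0 < n := by omega
          exact_mod_cast this)]
        have h1 := Real.exp_one_lt_d9
        have h2 : (5 : ℝ) ≤ n := by exact_mod_cast (by omega : 5 ≤ n)
        linarith
      have hab := abel_bound w a m₀ E (fun n hn => by
          have := hlogpos n hn
          rw [hw]
          positivity) (fun n hn => by
          have h1 := hlogpos n hn
          rw [hw]
          simp only
          apply inv_anti₀ (by linarith)
          apply Real.log_le_log
          · have : 0 < n := by omega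
            exact_mod_cast this
          · push_cast
            linarith) m₁ hm01 (fun t ht1 ht2 => by
          have h1 := hcls t ht1.le ht2
          rw [sum_filter] at h1
          exact h1)
      have hsum : ∑ p ∈ Q, e ((h : ℝ) / q * α * p) = ∑ i ∈ Ioc m₀ m₁, (w i : ℂ) * a i := by
        rw [hQ, sum_filter]
        refine sum_congr rfl fun n hn => ?_
        have hn0 := hlogpos n (Finset.mem_Ioc.mp hn).1
        rw [ha, hw, hG]
        simp only
        by_cases h1 : n ≡ r [MOD d]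
        · by_cases h2 : n.Prime
          · rw [if_pos ⟨h2, h1⟩, if_pos h1, if_pos h2, ← mul_assoc]
            rw [← Complex.ofReal_mul, inv_mul_cancel₀ (by linarith), Complex.ofReal_one, one_mul]
          · rw [if_neg (fun h3 => h2 h3.1), if_pos h1, if_neg h2]
            simp
        · rw [if_neg (fun h3 => h1 h3.2), if_neg h1, mul_zero]
      rw [hsum]
      refine hab.trans ?_
      have hw1 : w (m₀ + 1) ≤ 1 := by
        rw [hw]
        exact inv_le_one_of_one_le₀ (hlogpos (m₀ + 1) (by omega))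
      calc w (m₀ + 1) * E ≤ 1 * E := mul_le_mul_of_nonneg_right hw1 hE0
        _ = 5 * Z ^ (1 - 9 / 20 * (τ / 8)) := by rw [one_mul]
        _ ≤ Z ^ (1 - τ / 1000 - 4 * (τ / 100)) := hp2
        _ = Z ^ (1 - τ / 1000) * Z ^ (-(4 * (τ / 100))) := by
            rw [← Real.rpow_add hZ0]; congr 1
        _ ≤ _ := by gcongr) l hl
  refine le_trans (le_of_eq ?_) hfinal
  congr 2

end Pool.Agent.R502.LG
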